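import Pool.Agent.MP_34d7b7_lc.H57.RL

/-!
Every Diophantine set is defined by a regular word equation with length constraints.
-/

namespace Pool.Agent.MP_34d7b7_lc.H57

open Sum

variable {ι : Type}

theorem rl_dvd : RL fun v : Fin 3 → ℕ => v 0 + 1 ∣ v 1 := by
  refine ⟨Fin 4, [inr true, inl 0, inl 2, inl 3, inl 1, inr false],
    [inl 2, inl 1, inr true, inr false, inl 0, inl 3],
    fun l => l (inr 0) = l (inl 0) ∧ l (inr 1) = l (inl 0) ∧ l (inr 2) = l (inl 1) + 1 ∧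
      l (inr 3) = l (inl 1) + 1, by decide, by decide, ?_, fun v => ?_⟩
  · exact (Lin.eq (LinF.proj _) (LinF.proj _)).and ((Lin.eq (LinF.proj _) (LinF.proj _)).and
      ((Lin.eq (LinF.proj _) ((LinF.proj _).add (LinF.const 1))).and
        (Lin.eq (LinF.proj _) ((LinF.proj _).add (LinF.const 1)))))
  · refine (div_iff (a := true) (b := false) (by decide) (v 0) (v 1)).symm.trans ?_
    constructor
    · rintro ⟨y, y', x, x', h1, h2, h3, h4, e1, e2⟩
      refine ⟨![y, y', x, x'], ?_, h1, h2, h3, h4⟩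
      have := congrArg₂ (· ++ ·) e1 e2
      simpa [subst] using this
    · rintro ⟨h, e, h1, h2, h3, h4⟩
      simp only [elim_inl, elim_inr] at h1 h2 h3 h4
      have e' : (true :: (h 0 ++ h 2)) ++ (h 3 ++ (h 1 ++ [false]))
          = (h 2 ++ (h 1 ++ [true])) ++ (false :: (h 0 ++ h 3)) := by
        simpa [subst] using e
      obtain ⟨e1, e2⟩ := List.append_inj e' (by simp; omega)
      exact ⟨_, _, _, _, h1, h2, h3, h4, e1, e2⟩

theorem rl_sq (l0 l1 l2 l3 l4 l5 : Bool) :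
    RL fun v : Fin 3 → ℕ => Sq l0 l1 l2 l3 l4 l5 (v 0) (v 1) (v 2) := by
  refine ⟨Fin 8, [inr l0, inl 0, inr l1, inl 1, inr l2, inl 2, inr l3, inl 3, inr l4, inl 4,
      inr l5, inl 5, inl 7, inl 6],
    [inl 6, inl 7, inr l0, inl 1, inr l1, inl 0, inr l2, inl 3, inr l3, inl 2, inr l4, inl 5,
      inr l5, inl 4],
    fun l => l (inr 0) + 1 = l (inl 0) ∧ l (inr 1) + 1 = l (inl 0) ∧ l (inr 2) + 1 = l (inl 1) ∧
      l (inr 3) + 1 = l (inl 1) ∧ l (inr 4) + 1 = l (inl 2) ∧ l (inr 5) + 1 = l (inl 2) ∧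
      l (inr 6) = l (inr 7) ∧ l (inr 6) = l (inl 0) + l (inl 1) + l (inl 2),
    (by decide : ([0, 1, 2, 3, 4, 5, 7, 6] : List (Fin 8)).Nodup),
    (by decide : ([6, 7, 1, 0, 3, 2, 5, 4] : List (Fin 8)).Nodup), ?_, fun v => ?_⟩
  · repeat' first
      | exact LinF.proj _ | exact LinF.const _ | apply LinF.add | apply Lin.and | apply Lin.eq
  · refine (sq_iff_double l0 l1 l2 l3 l4 l5 (v 0) (v 1) (v 2)).symm.trans ?_
    constructor
    · rintro ⟨x, x', y, y', z, z', p, q, h1, h2, h3, h4, h5, h6, h7, e1, e2⟩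
      refine ⟨![x, x', y, y', z, z', p, q], ?_, h1, h2, h3, h4, h5, h6, h7, ?_⟩
      · have := congrArg₂ (· ++ ·) e1 e2
        simpa [subst] using this
      · have := congrArg List.length e1
        simp only [List.length_cons, List.length_append] at this
        show p.length = v 0 + v 1 + v 2
        omega
    · rintro ⟨h, e, h1, h2, h3, h4, h5, h6, h7, h8⟩
      simp only [elim_inl, elim_inr] at h1 h2 h3 h4 h5 h6 h7 h8
      have e' : (l0 :: (h 0 ++ l1 :: (h 1 ++ l2 :: (h 2 ++ l3 :: (h 3 ++ l4 ::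
          (h 4 ++ l5 :: h 5)))))) ++ (h 7 ++ h 6) = (h 6 ++ h 7) ++ (l0 :: (h 1 ++ l1 ::
          (h 0 ++ l2 :: (h 3 ++ l3 :: (h 2 ++ l4 :: (h 5 ++ l5 :: h 4)))))) := by
        simpa [subst] using e
      obtain ⟨e1, e2⟩ := List.append_inj e' (by simp; omega)
      exact ⟨_, _, _, _, _, _, _, _, h1, h2, h3, h4, h5, h6, h7, e1, e2⟩

theorem RL.dv {f g : (ι → ℕ) → ℕ} (hf : LF f) (hg : LF g) : RL fun v => Dv (f v) (g v) := by
  refine RL.app3 (R := fun x y _ => Dv x y) ?_ hf hg (LF.const 0)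
  refine (RL.ex1 (S := fun e v => v 0 = e + 1 ∧ e + 1 ∣ v 1) ((RL.eq (LF.proj _)
    ((LF.proj _).add (LF.const 1))).and (RL.app3 (R := fun x y _ => x + 1 ∣ y) rl_dvd
      (LF.proj _) (LF.proj _) (LF.const 0)))).congr fun v => ?_
  constructor
  · rintro ⟨e, h1, h2⟩
    exact ⟨by omega, h1 ▸ h2⟩
  · rintro ⟨h1, h2⟩
    refine ⟨v 0 - 1, by omega, ?_⟩
    rwa [show v 0 - 1 + 1 = v 0 by omega]

theorem RL.acc {f g k : (ι → ℕ) → ℕ} (hf : LF f) (hg : LF g) (hk : LF k) :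
    RL fun v => Acc (f v) (g v) (k v) :=
  RL.app3 (R := Acc) ((rl_sq _ _ _ _ _ _).and (rl_sq _ _ _ _ _ _)) hf hg hk

theorem lf_dot {r : V3} (hr : PosV r) :
    LF fun v : Fin 3 → ℕ => (dot r ((v 0 : ℤ), (v 1 : ℤ), (v 2 : ℤ))).toNat := by
  obtain ⟨a, b, c⟩ := r
  obtain ⟨h1, h2, h3⟩ := hr
  dsimp only at h1 h2 h3
  lift a to ℕ using h1.le
  lift b to ℕ using h2.le
  lift c to ℕ using h3.le
  have : (fun v : Fin 3 → ℕ => (dot ((a : ℤ), (b : ℤ), (c : ℤ))
      ((v 0 : ℤ), (v 1 : ℤ), (v 2 : ℤ))).toNat) = fun v => a * v 0 + b * v 1 + c * v 2 := by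
    funext v
    simp only [dot]
    norm_cast
  rw [this]
  exact (((LF.proj _).smul a).add ((LF.proj _).smul b)).add ((LF.proj _).smul c)

theorem RL.thin {f g k : (ι → ℕ) → ℕ} (hf : LF f) (hg : LF g) (hk : LF k) :
    RL fun v => ThinN (f v) (g v) (k v) :=
  RL.app3 (R := ThinN) (RL.forall_list thetas fun T hT =>
    RL.acc (lf_dot (theta_entries T hT).1) (lf_dot (theta_entries T hT).2.1)
      (lf_dot (theta_entries T hT).2.2)) hf hg hk

theorem RL.scale {f g k : (ι → ℕ) → ℕ} (hf : LF f) (hg : LF g) (hk : LF k) :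
    RL fun v => Scale (f v) (g v) (k v) := by
  refine RL.app3 (R := Scale) ?_ hf hg hk
  unfold Scale
  iterate 10 apply RL.ex1
  repeat' first
    | exact LF.proj _ | exact LF.const _ | apply LF.add | apply RL.thin | apply RL.dv
    | apply RL.and | apply RL.eq

theorem LF.mul {f g : (ι → ℕ) → ℕ} (hf : LF f) (hg : LF g) : LF fun v => f v * g v := by
  refine RL.app3 (R := fun z x y => z = x * y) ?_ (LF.proj none) (hf.comap some) (hg.comap some)
  refine RL.congr (S := fun v => MulRel (v 1) (v 2) (v 0)) ?_ fun v => mulRel_iff _ _ _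
  unfold MulRel
  iterate 4 apply RL.ex1
  repeat' first
    | exact LF.proj _ | exact LF.const _ | apply LF.add | apply RL.scale | apply RL.dv
    | apply RL.and | apply RL.lt | apply RL.eq

theorem isPoly_lf {p : (ι → ℕ) → ℤ} (hp : IsPoly p) :
    ∃ f g : (ι → ℕ) → ℕ, LF f ∧ LF g ∧ ∀ v, p v = (f v : ℤ) - g v := by
  induction hp with
  | proj i => exact ⟨_, _, LF.proj i, LF.const 0, by simp⟩
  | const n => exact ⟨_, _, LF.const n.toNat, LF.const (-n).toNat, fun _ => by beta_reduce; omega⟩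
  | sub _ _ h1 h2 =>
    obtain ⟨f, g, hf, hg, e⟩ := h1
    obtain ⟨f', g', hf', hg', e'⟩ := h2
    exact ⟨_, _, hf.add hg', hg.add hf', fun v => by beta_reduce; rw [e, e']; push_cast; ring⟩
  | mul _ _ h1 h2 =>
    obtain ⟨f, g, hf, hg, e⟩ := h1
    obtain ⟨f', g', hf', hg', e'⟩ := h2
    exact ⟨_, _, (hf.mul hf').add (hg.mul hg'), (hf.mul hg').add (hg.mul hf'),
      fun v => by beta_reduce; rw [e, e']; push_cast; ring⟩

theorem RL.of_dioph {S : Set (ι → ℕ)} (h : Dioph S) : RL fun v => v ∈ S := by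
  obtain ⟨β, p, hp⟩ := h
  obtain ⟨f, g, hf, hg, e⟩ := isPoly_lf p.isPoly
  refine (RL.eq hf hg).ex.congr fun v => ?_
  refine Iff.trans (exists_congr fun t => ?_) (hp v).symm
  have := e (Sum.elim v t)
  constructor
  · intro h0
    show p (Sum.elim v t) = 0
    rw [this, h0, sub_self]
  · intro h0
    have h1 : p (Sum.elim v t) = 0 := h0
    omega

end Pool.Agent.MP_34d7b7_lc.H57
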