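import Pool.Agent.MP_34d7b7_lc.H57.Words

/-!
A thin set cut out by finitely many marked equations.
-/

namespace Pool.Agent.MP_34d7b7_lc.H57

abbrev V3 := ℤ × ℤ × ℤ
abbrev M3 := V3 × V3 × V3

def AccZ (s : V3) : Prop := Acc s.1.toNat s.2.1.toNat s.2.2.toNat

def PosV (s : V3) : Prop := 0 < s.1 ∧ 0 < s.2.1 ∧ 0 < s.2.2

theorem AccZ.pos {s : V3} (h : AccZ s) : PosV s := by
  have := h.1.pos
  refine ⟨?_, ?_, ?_⟩ <;> omega

def up (k : Fin 3) (s : V3) : V3 :=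
  if k = 0 then (s.1 + s.2.1 + s.2.2, s.2.1, s.2.2)
  else if k = 1 then (s.1, s.1 + s.2.1 + s.2.2, s.2.2)
  else (s.1, s.2.1, s.1 + s.2.1 + s.2.2)

def upM (k : Fin 3) (T : M3) : M3 :=
  if k = 0 then (T.1 + T.2.1 + T.2.2, T.2.1, T.2.2)
  else if k = 1 then (T.1, T.1 + T.2.1 + T.2.2, T.2.2)
  else (T.1, T.2.1, T.1 + T.2.1 + T.2.2)

def dot (r m : V3) : ℤ := r.1 * m.1 + r.2.1 * m.2.1 + r.2.2 * m.2.2

def app (T : M3) (m : V3) : V3 := (dot T.1 m, dot T.2.1 m, dot T.2.2 m)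

theorem dot_add (r s m : V3) : dot (r + s) m = dot r m + dot s m := by
  simp only [dot, Prod.fst_add, Prod.snd_add]; ring

theorem app_upM (k : Fin 3) (T : M3) (m : V3) : app (upM k T) m = up k (app T m) := by
  unfold upM up
  split_ifs <;> simp only [app, dot_add]

theorem app_upsM (w : List (Fin 3)) (T : M3) (m : V3) :
    app (w.foldr upM T) m = w.foldr up (app T m) := by
  induction w with
  | nil => rfl
  | cons k w ih => rw [List.foldr_cons, app_upM, ih, List.foldr_cons]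

theorem PosV.up {s : V3} (h : PosV s) (k : Fin 3) : PosV (up k s) := by
  obtain ⟨h1, h2, h3⟩ := h
  unfold H57.up
  split_ifs <;> refine ⟨?_, ?_, ?_⟩ <;> dsimp only <;> omega

theorem accZ_up_iff {s : V3} (h : PosV s) (k : Fin 3) : AccZ (up k s) ↔ AccZ s := by
  obtain ⟨a, b, c⟩ := s
  obtain ⟨h1, h2, h3⟩ := h
  dsimp only at h1 h2 h3
  have e : (a + b + c).toNat = a.toNat + b.toNat + c.toNat := by omega
  unfold up
  split_ifs <;> simp only [AccZ, e]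
  · exact ⟨Acc.down0 (by omega), Acc.up0⟩
  · exact ⟨Acc.down1 (by omega), Acc.up1⟩
  · exact ⟨Acc.down2 (by omega), Acc.up2⟩

theorem PosV.ups {s : V3} (h : PosV s) (w : List (Fin 3)) : PosV (w.foldr H57.up s) := by
  induction w with
  | nil => exact h
  | cons k w ih => exact ih.up k

theorem accZ_ups_iff {s : V3} (h : PosV s) (w : List (Fin 3)) :
    AccZ (w.foldr up s) ↔ AccZ s := by
  induction w with
  | nil => rfl
  | cons k w ih => rw [List.foldr_cons, accZ_up_iff (h.ups w), ih]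

/-- matrices, words and tie points -/
def thetaData : List (M3 × List (Fin 3) × ℤ × ℤ) :=
  [(((307, 359, 204), (91, 120, 69), (27, 42, 29)), [0, 0, 1], 97, 194),
   (((444, 544, 313), (137, 166, 98), (43, 55, 29)), [0, 0, 1, 0, 2, 0, 0, 1, 0, 2, 2, 1, 0], 1, 1),
   (((617, 755, 422), (193, 214, 157), (53, 104, 21)), [0, 0, 1, 0, 2], 97, 97),
   (((2563, 3157, 1808), (797, 938, 583), (245, 338, 141)), [0, 0, 1, 0, 2, 0, 0], 291, 97),
   (((2761, 3368, 1956), (844, 1065, 576), (276, 300, 221)), [0, 0, 1, 0, 2, 0, 0, 1], 97, 97),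
   (((2930, 3383, 2098), (817, 1411, 353), (349, 4, 594)), [0, 0, 1, 0, 2, 1, 0], 97, 194),
   (((3889, 4767, 2758), (1197, 1474, 833), (385, 448, 277)), [0, 0, 1, 0, 2, 0, 0], 485, 97),
   (((4285, 5189, 3054), (1291, 1728, 819), (447, 372, 437)), [0, 0, 1, 0, 2, 0, 0, 1, 1], 97, 97),
   (((4819, 5955, 3412), (1503, 1756, 1097), (463, 634, 253)), [0, 0, 1, 0, 2, 0, 0, 0], 485, 97),
   (((5413, 6588, 3856), (1644, 2137, 1076), (556, 520, 493)), [0, 0, 1, 0, 2, 0, 0, 1, 0, 0], 97, 97),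
   (((39845, 48843, 28092), (12303, 14870, 8817), (3855, 4962, 2567)), [0, 0, 1, 0, 2, 0, 0, 1, 0, 2, 0, 2], 194, 97)]

def thetas : List M3 := thetaData.map Prod.fst

/-- the thin set -/
def Thin (m : V3) : Prop := ∀ T ∈ thetas, AccZ (app T m)

theorem hole {a b c : ℤ} (hB : Thin (a, b, c)) (w : List (Fin 3))
    (t1 t2 t3 t4 t5 t6 t7 t8 t9 : ℤ)
    (hm : w.foldr upM ((t1, t2, t3), (t4, t5, t6), (t7, t8, t9)) ∈ thetas)
    (h1 : t1 * a + t2 * b + t3 * c < t4 * a + t5 * b + t6 * c + (t7 * a + t8 * b + t9 * c))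
    (h2 : t4 * a + t5 * b + t6 * c < t1 * a + t2 * b + t3 * c + (t7 * a + t8 * b + t9 * c))
    (h3 : t7 * a + t8 * b + t9 * c < t1 * a + t2 * b + t3 * c + (t4 * a + t5 * b + t6 * c)) :
    False := by
  have h := hB _ hm
  rw [app_upsM, accZ_ups_iff] at h
  · simp only [AccZ, app, dot] at h
    generalize t1 * a + t2 * b + t3 * c = x at *
    generalize t4 * a + t5 * b + t6 * c = y at *
    generalize t7 * a + t8 * b + t9 * c = z at *
    exact h.not_tri (by omega) (by omega) (by omega)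
  · simp only [PosV, app, dot]
    omega

def Cx (a b c : ℤ) : Prop := Thin (a, b, c) ∧ ¬ (a = 3 * c ∧ b = 2 * c) ∧
  ¬ (0 ≤ 2 * a - 5 * b - 4 * c ∧ 0 ≤ -a + 3 * b + c ∧ 0 ≤ -a + 2 * b + 4 * c)

theorem cv5 {a b c : ℤ} (h : Cx a b c) (f0 : 0 ≤ 1 * a + (-9) * b + (-3) * c)
    (f1 : 0 ≤ 0 * a + 1 * b + (-2) * c) (f2 : 0 ≤ 0 * a + 0 * b + 1 * c) : False := by
  have h1 := h.2.1
  exact hole h.1 [0, 0] 71 35 8 91 120 69 27 42 29 (by decide) (by omega) (by omega) (by omega)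

theorem cv6 {a b c : ℤ} (h : Cx a b c) (f0 : 0 ≤ 1 * a + (-4) * b + (-13) * c)
    (f1 : 0 ≤ (-1) * a + 9 * b + 3 * c) (f2 : 0 ≤ 0 * a + 0 * b + 1 * c) : False := by
  have h1 := h.2.1
  exact hole h.1 [0, 0, 1, 0, 2, 0, 0, 1] (-11) 220 175 53 (-90) (-173) 45 (-27) 16 (by decide) (by omega) (by omega) (by omega)

theorem cv4 {a b c : ℤ} (h : Cx a b c) (f0 : 0 ≤ 1 * a + (-4) * b + (-13) * c)
    (f1 : 0 ≤ 0 * a + 1 * b + (-2) * c) (f2 : 0 ≤ 0 * a + 0 * b + 1 * c) : False := by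
  rcases le_total 0 (1 * a + (-9) * b + (-3) * c) with g | g
  · exact cv5 h (by omega) (by omega) (by omega)
  · exact cv6 h (by omega) (by omega) (by omega)

theorem cv8 {a b c : ℤ} (h : Cx a b c) (f0 : 0 ≤ 1 * a + (-4) * b + (-5) * c)
    (f1 : 0 ≤ 0 * a + 1 * b + (-2) * c) (f2 : 0 ≤ (-1) * a + 4 * b + 13 * c) : False := by
  have h1 := h.2.1
  exact hole h.1 [0, 0, 1, 0, 2, 0, 0, 1] (-11) 220 175 53 (-90) (-173) 45 (-27) 16 (by decide) (by omega) (by omega) (by omega)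

theorem cv9 {a b c : ℤ} (h : Cx a b c) (f0 : 0 ≤ 1 * a + (-4) * b + (-1) * c)
    (f1 : 0 ≤ 0 * a + 1 * b + (-2) * c) (f2 : 0 ≤ (-1) * a + 4 * b + 5 * c) : False := by
  have h1 := h.2.1
  exact hole h.1 [0, 0, 1, 0, 2, 0, 0, 1] (-7) 140 129 69 (-216) 31 11 71 (-78) (by decide) (by omega) (by omega) (by omega)

theorem cv7 {a b c : ℤ} (h : Cx a b c) (f0 : 0 ≤ 1 * a + (-4) * b + (-1) * c)
    (f1 : 0 ≤ 0 * a + 1 * b + (-2) * c) (f2 : 0 ≤ (-1) * a + 4 * b + 13 * c) : False := by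
  rcases le_total 0 (1 * a + (-4) * b + (-5) * c) with g | g
  · exact cv8 h (by omega) (by omega) (by omega)
  · exact cv9 h (by omega) (by omega) (by omega)

theorem cv3 {a b c : ℤ} (h : Cx a b c) (f0 : 0 ≤ 1 * a + (-4) * b + (-1) * c)
    (f1 : 0 ≤ 0 * a + 1 * b + (-2) * c) (f2 : 0 ≤ 0 * a + 0 * b + 1 * c) : False := by
  rcases le_total 0 (1 * a + (-4) * b + (-13) * c) with g | g
  · exact cv4 h (by omega) (by omega) (by omega)
  · exact cv7 h (by omega) (by omega) (by omega)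

theorem cv11 {a b c : ℤ} (h : Cx a b c) (f0 : 0 ≤ 2 * a + (-3) * b + (-12) * c)
    (f1 : 0 ≤ (-1) * a + 4 * b + (-9) * c) (f2 : 0 ≤ 0 * a + 0 * b + 1 * c) : False := by
  have h1 := h.2.1
  exact hole h.1 [0, 0, 1, 0] 379 (-305) 55 (-130) 854 (-445) 349 4 594 (by decide) (by omega) (by omega) (by omega)

theorem cv13 {a b c : ℤ} (h : Cx a b c) (f0 : 0 ≤ 4 * a + (-11) * b + (-14) * c)
    (f1 : 0 ≤ (-1) * a + 4 * b + 1 * c) (f2 : 0 ≤ 1 * a + (-4) * b + 9 * c) : False := by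
  have h1 := h.2.1
  exact hole h.1 [0, 0, 1, 0, 2, 0, 0, 1] (-113) 514 475 227 (-660) (-137) 39 93 (-206) (by decide) (by omega) (by omega) (by omega)

theorem cv15 {a b c : ℤ} (h : Cx a b c) (f0 : 0 ≤ 2 * a + (-3) * b + (-12) * c)
    (f1 : 0 ≤ (-1) * a + 3 * b + 1 * c) (f2 : 0 ≤ 1 * a + (-4) * b + 9 * c) : False := by
  have h1 := h.2.1
  exact hole h.1 [0, 0, 1, 0, 2, 0, 0] 65 (-136) (-117) 15 (-9) 70 (-19) 89 (-24) (by decide) (by omega) (by omega) (by omega)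

theorem cv17 {a b c : ℤ} (h : Cx a b c) (f0 : 0 ≤ (-1) * a + 9 * b + (-19) * c)
    (f1 : 0 ≤ (-4) * a + 11 * b + 14 * c) (f2 : 0 ≤ 1 * a + (-3) * b + (-1) * c) : False := by
  have h1 := h.2.1
  exact hole h.1 [0, 0, 1, 0, 2, 0, 0] 65 (-136) (-117) 15 (-9) 70 (-19) 89 (-24) (by decide) (by omega) (by omega) (by omega)

theorem cv20 {a b c : ℤ} (h : Cx a b c) (f0 : 0 ≤ 17 * a + (-43) * b + (-57) * c)
    (f1 : 0 ≤ (-9) * a + 31 * b + 9 * c) (f2 : 0 ≤ 1 * a + (-9) * b + 19 * c) : False := by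
  have h1 := h.2.1
  exact hole h.1 [0, 0, 1, 0, 2, 0, 0, 1, 0, 2] (-109) 337 332 53 (-90) (-173) 101 (-274) (-143) (by decide) (by omega) (by omega) (by omega)

theorem cv21 {a b c : ℤ} (h : Cx a b c) (f0 : 0 ≤ 2 * a + (-3) * b + (-12) * c)
    (f1 : 0 ≤ (-17) * a + 43 * b + 57 * c) (f2 : 0 ≤ 1 * a + (-9) * b + 19 * c) : False := by
  have h1 := h.2.1
  exact hole h.1 [0, 0, 1, 0, 2, 0, 0] 439 (-923) (-1023) (-130) 854 (-445) 100 (-545) 984 (by decide) (by omega) (by omega) (by omega)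

theorem cv19 {a b c : ℤ} (h : Cx a b c) (f0 : 0 ≤ 2 * a + (-3) * b + (-12) * c)
    (f1 : 0 ≤ (-9) * a + 31 * b + 9 * c) (f2 : 0 ≤ 1 * a + (-9) * b + 19 * c) : False := by
  rcases le_total 0 (17 * a + (-43) * b + (-57) * c) with g | g
  · exact cv20 h (by omega) (by omega) (by omega)
  · exact cv21 h (by omega) (by omega) (by omega)

theorem cv22 {a b c : ℤ} (h : Cx a b c) (f0 : 0 ≤ 2 * a + (-3) * b + (-12) * c)
    (f1 : 0 ≤ (-4) * a + 11 * b + 14 * c) (f2 : 0 ≤ 9 * a + (-31) * b + (-9) * c) : False := by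
  have h1 := h.2.1
  exact hole h.1 [0, 0, 1, 0, 2, 0, 0, 1, 0] 4 (-1) (-6) 1 (-3) 9 2 8 (-1) (by decide) (by omega) (by omega) (by omega)

theorem cv18 {a b c : ℤ} (h : Cx a b c) (f0 : 0 ≤ 2 * a + (-3) * b + (-12) * c)
    (f1 : 0 ≤ (-4) * a + 11 * b + 14 * c) (f2 : 0 ≤ 1 * a + (-9) * b + 19 * c) : False := by
  rcases le_total 0 ((-9) * a + 31 * b + 9 * c) with g | g
  · exact cv19 h (by omega) (by omega) (by omega)
  · exact cv22 h (by omega) (by omega) (by omega)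

theorem cv16 {a b c : ℤ} (h : Cx a b c) (f0 : 0 ≤ 2 * a + (-3) * b + (-12) * c)
    (f1 : 0 ≤ (-4) * a + 11 * b + 14 * c) (f2 : 0 ≤ 1 * a + (-3) * b + (-1) * c) : False := by
  rcases le_total 0 ((-1) * a + 9 * b + (-19) * c) with g | g
  · exact cv17 h (by omega) (by omega) (by omega)
  · exact cv18 h (by omega) (by omega) (by omega)

theorem cv14 {a b c : ℤ} (h : Cx a b c) (f0 : 0 ≤ 2 * a + (-3) * b + (-12) * c)
    (f1 : 0 ≤ (-4) * a + 11 * b + 14 * c) (f2 : 0 ≤ 1 * a + (-4) * b + 9 * c) : False := by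
  rcases le_total 0 ((-1) * a + 3 * b + 1 * c) with g | g
  · exact cv15 h (by omega) (by omega) (by omega)
  · exact cv16 h (by omega) (by omega) (by omega)

theorem cv12 {a b c : ℤ} (h : Cx a b c) (f0 : 0 ≤ 2 * a + (-3) * b + (-12) * c)
    (f1 : 0 ≤ (-1) * a + 4 * b + 1 * c) (f2 : 0 ≤ 1 * a + (-4) * b + 9 * c) : False := by
  rcases le_total 0 (4 * a + (-11) * b + (-14) * c) with g | g
  · exact cv13 h (by omega) (by omega) (by omega)
  · exact cv14 h (by omega) (by omega) (by omega)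

theorem cv10 {a b c : ℤ} (h : Cx a b c) (f0 : 0 ≤ 2 * a + (-3) * b + (-12) * c)
    (f1 : 0 ≤ (-1) * a + 4 * b + 1 * c) (f2 : 0 ≤ 0 * a + 0 * b + 1 * c) : False := by
  rcases le_total 0 ((-1) * a + 4 * b + (-9) * c) with g | g
  · exact cv11 h (by omega) (by omega) (by omega)
  · exact cv12 h (by omega) (by omega) (by omega)

theorem cv2 {a b c : ℤ} (h : Cx a b c) (f0 : 0 ≤ 2 * a + (-3) * b + (-12) * c)
    (f1 : 0 ≤ 0 * a + 1 * b + (-2) * c) (f2 : 0 ≤ 0 * a + 0 * b + 1 * c) : False := by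
  rcases le_total 0 (1 * a + (-4) * b + (-1) * c) with g | g
  · exact cv3 h (by omega) (by omega) (by omega)
  · exact cv10 h (by omega) (by omega) (by omega)

theorem cv29 {a b c : ℤ} (h : Cx a b c) (f0 : 0 ≤ 10 * a + (-43) * b + 12 * c)
    (f1 : 0 ≤ 0 * a + 1 * b + (-2) * c) (f2 : 0 ≤ (-2) * a + 3 * b + 12 * c) : False := by
  have h1 := h.2.1
  exact hole h.1 [0, 0, 1, 0, 2, 0, 0, 1, 0] 4 (-1) (-6) 1 (-3) 9 2 8 (-1) (by decide) (by omega) (by omega) (by omega)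

theorem cv30 {a b c : ℤ} (h : Cx a b c) (f0 : 0 ≤ 10 * a + (-27) * b + (-20) * c)
    (f1 : 0 ≤ (-10) * a + 43 * b + (-12) * c) (f2 : 0 ≤ (-2) * a + 3 * b + 12 * c) : False := by
  have h1 := h.2.1
  exact hole h.1 [0, 0, 1, 0, 2, 0, 0] 439 (-923) (-1023) (-130) 854 (-445) 100 (-545) 984 (by decide) (by omega) (by omega) (by omega)

theorem cv28 {a b c : ℤ} (h : Cx a b c) (f0 : 0 ≤ 10 * a + (-27) * b + (-20) * c)
    (f1 : 0 ≤ 0 * a + 1 * b + (-2) * c) (f2 : 0 ≤ (-2) * a + 3 * b + 12 * c) : False := by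
  rcases le_total 0 (10 * a + (-43) * b + 12 * c) with g | g
  · exact cv29 h (by omega) (by omega) (by omega)
  · exact cv30 h (by omega) (by omega) (by omega)

theorem cv32 {a b c : ℤ} (h : Cx a b c) (f0 : 0 ≤ 6 * a + (-21) * b + 4 * c)
    (f1 : 0 ≤ 10 * a + (-11) * b + (-52) * c) (f2 : 0 ≤ (-10) * a + 27 * b + 20 * c) : False := by
  have h1 := h.2.1
  exact hole h.1 [0, 0, 1, 0, 2, 0, 0] 439 (-923) (-1023) (-130) 854 (-445) 100 (-545) 984 (by decide) (by omega) (by omega) (by omega)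

theorem cv33 {a b c : ℤ} (h : Cx a b c) (f0 : 0 ≤ 6 * a + (-21) * b + 4 * c)
    (f1 : 0 ≤ 0 * a + 1 * b + (-2) * c) (f2 : 0 ≤ (-10) * a + 11 * b + 52 * c) : False := by
  have h1 := h.2.1
  exact hole h.1 [0, 0, 1, 0, 2, 0, 0] 87 6 (-79) 35 367 (-160) 85 (-245) 332 (by decide) (by omega) (by omega) (by omega)

theorem cv31 {a b c : ℤ} (h : Cx a b c) (f0 : 0 ≤ 6 * a + (-21) * b + 4 * c)
    (f1 : 0 ≤ 0 * a + 1 * b + (-2) * c) (f2 : 0 ≤ (-10) * a + 27 * b + 20 * c) : False := by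
  rcases le_total 0 (10 * a + (-11) * b + (-52) * c) with g | g
  · exact cv32 h (by omega) (by omega) (by omega)
  · exact cv33 h (by omega) (by omega) (by omega)

theorem cv27 {a b c : ℤ} (h : Cx a b c) (f0 : 0 ≤ 6 * a + (-21) * b + 4 * c)
    (f1 : 0 ≤ 0 * a + 1 * b + (-2) * c) (f2 : 0 ≤ (-2) * a + 3 * b + 12 * c) : False := by
  rcases le_total 0 (10 * a + (-27) * b + (-20) * c) with g | g
  · exact cv28 h (by omega) (by omega) (by omega)
  · exact cv31 h (by omega) (by omega) (by omega)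

theorem cv36 {a b c : ℤ} (h : Cx a b c) (f0 : 0 ≤ 14 * a + (-41) * b + 4 * c)
    (f1 : 0 ≤ (-2) * a + 15 * b + (-28) * c) (f2 : 0 ≤ (-2) * a + 3 * b + 12 * c) : False := by
  have h1 := h.2.1
  exact hole h.1 [0, 0, 1, 0, 2, 0, 0, 1, 0, 2, 0, 0] 211 (-437) (-244) 183 (-556) 757 (-193) 950 (-739) (by decide) (by omega) (by omega) (by omega)

theorem cv37 {a b c : ℤ} (h : Cx a b c) (f0 : 0 ≤ 6 * a + (-13) * b + (-12) * c)
    (f1 : 0 ≤ (-14) * a + 41 * b + (-4) * c) (f2 : 0 ≤ (-2) * a + 3 * b + 12 * c) : False := by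
  have h1 := h.2.1
  exact hole h.1 [0, 0, 1, 0, 2, 0, 0] (-7) 140 129 73 (-5) 82 11 71 (-78) (by decide) (by omega) (by omega) (by omega)

theorem cv35 {a b c : ℤ} (h : Cx a b c) (f0 : 0 ≤ 6 * a + (-13) * b + (-12) * c)
    (f1 : 0 ≤ (-2) * a + 15 * b + (-28) * c) (f2 : 0 ≤ (-2) * a + 3 * b + 12 * c) : False := by
  rcases le_total 0 (14 * a + (-41) * b + 4 * c) with g | g
  · exact cv36 h (by omega) (by omega) (by omega)
  · exact cv37 h (by omega) (by omega) (by omega)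

theorem cv45 {a b c : ℤ} (h : Cx a b c) (f0 : 0 ≤ 66 * a + (-95) * b + (-388) * c)
    (f1 : 0 ≤ (-6) * a + 21 * b + (-4) * c) (f2 : 0 ≤ 2 * a + (-15) * b + 28 * c) : False := by
  have h1 := h.2.1
  exact hole h.1 [0, 0, 1, 0, 2, 0, 0, 1, 0, 2, 0, 0] 8 (-19) (-16) 1 (-3) 9 (-3) 12 (-4) (by decide) (by omega) (by omega) (by omega)

theorem cv48 {a b c : ℤ} (h : Cx a b c) (f0 : 0 ≤ 194 * a + (-671) * b + 124 * c)
    (f1 : 0 ≤ (-30) * a + 241 * b + (-452) * c) (f2 : 0 ≤ (-66) * a + 95 * b + 388 * c) : False := by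
  have h1 := h.2.1
  exact hole h.1 [0, 0, 1, 0, 2, 0, 0, 1, 0, 2, 0, 0] 247 (-575) (-658) (-137) 606 (-413) 83 (-496) 743 (by decide) (by omega) (by omega) (by omega)

theorem cv49 {a b c : ℤ} (h : Cx a b c) (f0 : 0 ≤ 82 * a + (-215) * b + (-164) * c)
    (f1 : 0 ≤ (-194) * a + 671 * b + (-124) * c) (f2 : 0 ≤ (-66) * a + 95 * b + 388 * c) : False := by
  have h1 := h.2.1
  exact hole h.1 [0, 0, 1, 0, 2, 0, 0, 1, 0, 2, 0, 0, 1] (-417) 1065 964 369 (-881) (-994) 101 (-274) (-143) (by decide) (by omega) (by omega) (by omega)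

theorem cv47 {a b c : ℤ} (h : Cx a b c) (f0 : 0 ≤ 82 * a + (-215) * b + (-164) * c)
    (f1 : 0 ≤ (-30) * a + 241 * b + (-452) * c) (f2 : 0 ≤ (-66) * a + 95 * b + 388 * c) : False := by
  rcases le_total 0 (194 * a + (-671) * b + 124 * c) with g | g
  · exact cv48 h (by omega) (by omega) (by omega)
  · exact cv49 h (by omega) (by omega) (by omega)

theorem cv50 {a b c : ℤ} (h : Cx a b c) (f0 : 0 ≤ 82 * a + (-215) * b + (-164) * c)
    (f1 : 0 ≤ (-6) * a + 21 * b + (-4) * c) (f2 : 0 ≤ 30 * a + (-241) * b + 452 * c) : False := by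
  have h1 := h.2.1
  exact hole h.1 [0, 0, 1, 0, 2, 0, 0, 1, 0, 2, 0, 0] 247 (-575) (-658) (-137) 606 (-413) 83 (-496) 743 (by decide) (by omega) (by omega) (by omega)

theorem cv46 {a b c : ℤ} (h : Cx a b c) (f0 : 0 ≤ 82 * a + (-215) * b + (-164) * c)
    (f1 : 0 ≤ (-6) * a + 21 * b + (-4) * c) (f2 : 0 ≤ (-66) * a + 95 * b + 388 * c) : False := by
  rcases le_total 0 ((-30) * a + 241 * b + (-452) * c) with g | g
  · exact cv47 h (by omega) (by omega) (by omega)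
  · exact cv50 h (by omega) (by omega) (by omega)

theorem cv44 {a b c : ℤ} (h : Cx a b c) (f0 : 0 ≤ 82 * a + (-215) * b + (-164) * c)
    (f1 : 0 ≤ (-6) * a + 21 * b + (-4) * c) (f2 : 0 ≤ 2 * a + (-15) * b + 28 * c) : False := by
  rcases le_total 0 (66 * a + (-95) * b + (-388) * c) with g | g
  · exact cv45 h (by omega) (by omega) (by omega)
  · exact cv46 h (by omega) (by omega) (by omega)

theorem cv54 {a b c : ℤ} (h : Cx a b c) (f0 : 0 ≤ 134 * a + (-189) * b + (-780) * c)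
    (f1 : 0 ≤ (-98) * a + 335 * b + (-60) * c) (f2 : 0 ≤ 2 * a + (-15) * b + 28 * c) : False := by
  have h1 := h.2.1
  exact hole h.1 [0, 0, 1, 0, 2, 0, 0, 1, 0] 1008 (-2700) (-1601) (-669) 2322 (-406) 100 (-545) 984 (by decide) (by omega) (by omega) (by omega)

theorem cv55 {a b c : ℤ} (h : Cx a b c) (f0 : 0 ≤ 166 * a + (-429) * b + (-332) * c)
    (f1 : 0 ≤ (-98) * a + 335 * b + (-60) * c) (f2 : 0 ≤ (-134) * a + 189 * b + 780 * c) : False := by
  exact h.2.2 ⟨by omega, by omega, by omega⟩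

theorem cv53 {a b c : ℤ} (h : Cx a b c) (f0 : 0 ≤ 166 * a + (-429) * b + (-332) * c)
    (f1 : 0 ≤ (-98) * a + 335 * b + (-60) * c) (f2 : 0 ≤ 2 * a + (-15) * b + 28 * c) : False := by
  rcases le_total 0 (134 * a + (-189) * b + (-780) * c) with g | g
  · exact cv54 h (by omega) (by omega) (by omega)
  · exact cv55 h (by omega) (by omega) (by omega)

theorem cv56 {a b c : ℤ} (h : Cx a b c) (f0 : 0 ≤ 34 * a + (-47) * b + (-196) * c)
    (f1 : 0 ≤ (-166) * a + 429 * b + 332 * c) (f2 : 0 ≤ 2 * a + (-15) * b + 28 * c) : False := by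
  exact h.2.2 ⟨by omega, by omega, by omega⟩

theorem cv52 {a b c : ℤ} (h : Cx a b c) (f0 : 0 ≤ 34 * a + (-47) * b + (-196) * c)
    (f1 : 0 ≤ (-98) * a + 335 * b + (-60) * c) (f2 : 0 ≤ 2 * a + (-15) * b + 28 * c) : False := by
  rcases le_total 0 (166 * a + (-429) * b + (-332) * c) with g | g
  · exact cv53 h (by omega) (by omega) (by omega)
  · exact cv56 h (by omega) (by omega) (by omega)

theorem cv60 {a b c : ℤ} (h : Cx a b c) (f0 : 0 ≤ (-62) * a + 481 * b + (-900) * c)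
    (f1 : 0 ≤ (-82) * a + 215 * b + 164 * c) (f2 : 0 ≤ 98 * a + (-335) * b + 60 * c) : False := by
  have h1 := h.2.1
  exact hole h.1 [0, 0, 1, 0, 2, 0, 0, 1, 0, 2, 0, 0, 1, 0] 124 (-346) (-165) (-95) 348 (-120) 20 (-109) 158 (by decide) (by omega) (by omega) (by omega)

theorem cv61 {a b c : ℤ} (h : Cx a b c) (f0 : 0 ≤ 134 * a + (-189) * b + (-780) * c)
    (f1 : 0 ≤ (-82) * a + 215 * b + 164 * c) (f2 : 0 ≤ 62 * a + (-481) * b + 900 * c) : False := by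
  exact h.2.2 ⟨by omega, by omega, by omega⟩

theorem cv59 {a b c : ℤ} (h : Cx a b c) (f0 : 0 ≤ 134 * a + (-189) * b + (-780) * c)
    (f1 : 0 ≤ (-82) * a + 215 * b + 164 * c) (f2 : 0 ≤ 98 * a + (-335) * b + 60 * c) : False := by
  rcases le_total 0 ((-62) * a + 481 * b + (-900) * c) with g | g
  · exact cv60 h (by omega) (by omega) (by omega)
  · exact cv61 h (by omega) (by omega) (by omega)

theorem cv62 {a b c : ℤ} (h : Cx a b c) (f0 : 0 ≤ (-30) * a + 241 * b + (-452) * c)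
    (f1 : 0 ≤ (-134) * a + 189 * b + 780 * c) (f2 : 0 ≤ 98 * a + (-335) * b + 60 * c) : False := by
  exact h.2.2 ⟨by omega, by omega, by omega⟩

theorem cv58 {a b c : ℤ} (h : Cx a b c) (f0 : 0 ≤ (-30) * a + 241 * b + (-452) * c)
    (f1 : 0 ≤ (-82) * a + 215 * b + 164 * c) (f2 : 0 ≤ 98 * a + (-335) * b + 60 * c) : False := by
  rcases le_total 0 (134 * a + (-189) * b + (-780) * c) with g | g
  · exact cv59 h (by omega) (by omega) (by omega)
  · exact cv62 h (by omega) (by omega) (by omega)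

theorem cv63 {a b c : ℤ} (h : Cx a b c) (f0 : 0 ≤ 34 * a + (-47) * b + (-196) * c)
    (f1 : 0 ≤ (-82) * a + 215 * b + 164 * c) (f2 : 0 ≤ 30 * a + (-241) * b + 452 * c) : False := by
  exact h.2.2 ⟨by omega, by omega, by omega⟩

theorem cv57 {a b c : ℤ} (h : Cx a b c) (f0 : 0 ≤ 34 * a + (-47) * b + (-196) * c)
    (f1 : 0 ≤ (-82) * a + 215 * b + 164 * c) (f2 : 0 ≤ 98 * a + (-335) * b + 60 * c) : False := by
  rcases le_total 0 ((-30) * a + 241 * b + (-452) * c) with g | g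
  · exact cv58 h (by omega) (by omega) (by omega)
  · exact cv63 h (by omega) (by omega) (by omega)

theorem cv51 {a b c : ℤ} (h : Cx a b c) (f0 : 0 ≤ 34 * a + (-47) * b + (-196) * c)
    (f1 : 0 ≤ (-82) * a + 215 * b + 164 * c) (f2 : 0 ≤ 2 * a + (-15) * b + 28 * c) : False := by
  rcases le_total 0 ((-98) * a + 335 * b + (-60) * c) with g | g
  · exact cv52 h (by omega) (by omega) (by omega)
  · exact cv57 h (by omega) (by omega) (by omega)

theorem cv43 {a b c : ℤ} (h : Cx a b c) (f0 : 0 ≤ 34 * a + (-47) * b + (-196) * c)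
    (f1 : 0 ≤ (-6) * a + 21 * b + (-4) * c) (f2 : 0 ≤ 2 * a + (-15) * b + 28 * c) : False := by
  rcases le_total 0 (82 * a + (-215) * b + (-164) * c) with g | g
  · exact cv44 h (by omega) (by omega) (by omega)
  · exact cv51 h (by omega) (by omega) (by omega)

theorem cv64 {a b c : ℤ} (h : Cx a b c) (f0 : 0 ≤ 42 * a + (-107) * b + (-84) * c)
    (f1 : 0 ≤ (-6) * a + 21 * b + (-4) * c) (f2 : 0 ≤ (-34) * a + 47 * b + 196 * c) : False := by
  exact h.2.2 ⟨by omega, by omega, by omega⟩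

theorem cv42 {a b c : ℤ} (h : Cx a b c) (f0 : 0 ≤ 42 * a + (-107) * b + (-84) * c)
    (f1 : 0 ≤ (-6) * a + 21 * b + (-4) * c) (f2 : 0 ≤ 2 * a + (-15) * b + 28 * c) : False := by
  rcases le_total 0 (34 * a + (-47) * b + (-196) * c) with g | g
  · exact cv43 h (by omega) (by omega) (by omega)
  · exact cv64 h (by omega) (by omega) (by omega)

theorem cv66 {a b c : ℤ} (h : Cx a b c) (f0 : 0 ≤ 18 * a + (-23) * b + (-100) * c)
    (f1 : 0 ≤ (-50) * a + 167 * b + (-28) * c) (f2 : 0 ≤ 2 * a + (-15) * b + 28 * c) : False := by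
  have h1 := h.2.1
  exact hole h.1 [0, 0, 1, 0, 2, 0, 0, 1] 439 (-923) (-1023) (-669) 2322 (-406) 100 (-545) 984 (by decide) (by omega) (by omega) (by omega)

theorem cv67 {a b c : ℤ} (h : Cx a b c) (f0 : 0 ≤ 18 * a + (-23) * b + (-100) * c)
    (f1 : 0 ≤ (-42) * a + 107 * b + 84 * c) (f2 : 0 ≤ 50 * a + (-167) * b + 28 * c) : False := by
  have h1 := h.2.1
  exact hole h.1 [0, 0, 1, 0, 2, 0, 0, 1] 99 (-234) (-217) (-89) 228 199 (-17) 49 50 (by decide) (by omega) (by omega) (by omega)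

theorem cv65 {a b c : ℤ} (h : Cx a b c) (f0 : 0 ≤ 18 * a + (-23) * b + (-100) * c)
    (f1 : 0 ≤ (-42) * a + 107 * b + 84 * c) (f2 : 0 ≤ 2 * a + (-15) * b + 28 * c) : False := by
  rcases le_total 0 ((-50) * a + 167 * b + (-28) * c) with g | g
  · exact cv66 h (by omega) (by omega) (by omega)
  · exact cv67 h (by omega) (by omega) (by omega)

theorem cv41 {a b c : ℤ} (h : Cx a b c) (f0 : 0 ≤ 18 * a + (-23) * b + (-100) * c)
    (f1 : 0 ≤ (-6) * a + 21 * b + (-4) * c) (f2 : 0 ≤ 2 * a + (-15) * b + 28 * c) : False := by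
  rcases le_total 0 (42 * a + (-107) * b + (-84) * c) with g | g
  · exact cv42 h (by omega) (by omega) (by omega)
  · exact cv65 h (by omega) (by omega) (by omega)

theorem cv68 {a b c : ℤ} (h : Cx a b c) (f0 : 0 ≤ 22 * a + (-53) * b + (-44) * c)
    (f1 : 0 ≤ (-6) * a + 21 * b + (-4) * c) (f2 : 0 ≤ (-18) * a + 23 * b + 100 * c) : False := by
  have h1 := h.2.1
  exact hole h.1 [0, 0, 1, 0, 2, 0, 0, 1, 0] (-87) 285 176 69 (-216) 31 11 71 (-78) (by decide) (by omega) (by omega) (by omega)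

theorem cv40 {a b c : ℤ} (h : Cx a b c) (f0 : 0 ≤ 22 * a + (-53) * b + (-44) * c)
    (f1 : 0 ≤ (-6) * a + 21 * b + (-4) * c) (f2 : 0 ≤ 2 * a + (-15) * b + 28 * c) : False := by
  rcases le_total 0 (18 * a + (-23) * b + (-100) * c) with g | g
  · exact cv41 h (by omega) (by omega) (by omega)
  · exact cv68 h (by omega) (by omega) (by omega)

theorem cv69 {a b c : ℤ} (h : Cx a b c) (f0 : 0 ≤ 10 * a + (-11) * b + (-52) * c)
    (f1 : 0 ≤ (-22) * a + 53 * b + 44 * c) (f2 : 0 ≤ 2 * a + (-15) * b + 28 * c) : False := by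
  have h1 := h.2.1
  exact hole h.1 [0, 0, 1, 0, 2, 0] 75 (-142) (-135) (-7) 43 32 (-17) 49 50 (by decide) (by omega) (by omega) (by omega)

theorem cv39 {a b c : ℤ} (h : Cx a b c) (f0 : 0 ≤ 10 * a + (-11) * b + (-52) * c)
    (f1 : 0 ≤ (-6) * a + 21 * b + (-4) * c) (f2 : 0 ≤ 2 * a + (-15) * b + 28 * c) : False := by
  rcases le_total 0 (22 * a + (-53) * b + (-44) * c) with g | g
  · exact cv40 h (by omega) (by omega) (by omega)
  · exact cv69 h (by omega) (by omega) (by omega)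

theorem cv70 {a b c : ℤ} (h : Cx a b c) (f0 : 0 ≤ 6 * a + (-13) * b + (-12) * c)
    (f1 : 0 ≤ (-6) * a + 21 * b + (-4) * c) (f2 : 0 ≤ (-10) * a + 11 * b + 52 * c) : False := by
  have h1 := h.2.1
  exact hole h.1 [0, 0, 1, 0, 2, 0] 75 (-142) (-135) (-7) 43 32 (-17) 49 50 (by decide) (by omega) (by omega) (by omega)

theorem cv38 {a b c : ℤ} (h : Cx a b c) (f0 : 0 ≤ 6 * a + (-13) * b + (-12) * c)
    (f1 : 0 ≤ (-6) * a + 21 * b + (-4) * c) (f2 : 0 ≤ 2 * a + (-15) * b + 28 * c) : False := by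
  rcases le_total 0 (10 * a + (-11) * b + (-52) * c) with g | g
  · exact cv39 h (by omega) (by omega) (by omega)
  · exact cv70 h (by omega) (by omega) (by omega)

theorem cv34 {a b c : ℤ} (h : Cx a b c) (f0 : 0 ≤ 6 * a + (-13) * b + (-12) * c)
    (f1 : 0 ≤ (-6) * a + 21 * b + (-4) * c) (f2 : 0 ≤ (-2) * a + 3 * b + 12 * c) : False := by
  rcases le_total 0 ((-2) * a + 15 * b + (-28) * c) with g | g
  · exact cv35 h (by omega) (by omega) (by omega)
  · exact cv38 h (by omega) (by omega) (by omega)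

theorem cv26 {a b c : ℤ} (h : Cx a b c) (f0 : 0 ≤ 6 * a + (-13) * b + (-12) * c)
    (f1 : 0 ≤ 0 * a + 1 * b + (-2) * c) (f2 : 0 ≤ (-2) * a + 3 * b + 12 * c) : False := by
  rcases le_total 0 (6 * a + (-21) * b + 4 * c) with g | g
  · exact cv27 h (by omega) (by omega) (by omega)
  · exact cv34 h (by omega) (by omega) (by omega)

theorem cv71 {a b c : ℤ} (h : Cx a b c) (f0 : 0 ≤ 2 * a + (-5) * b + 0 * c)
    (f1 : 0 ≤ 0 * a + 1 * b + (-2) * c) (f2 : 0 ≤ (-6) * a + 13 * b + 12 * c) : False := by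
  have h1 := h.2.1
  exact hole h.1 [0, 0, 1, 0, 2, 0, 0] (-113) 514 475 153 (-53) 132 39 93 (-206) (by decide) (by omega) (by omega) (by omega)

theorem cv25 {a b c : ℤ} (h : Cx a b c) (f0 : 0 ≤ 2 * a + (-5) * b + 0 * c)
    (f1 : 0 ≤ 0 * a + 1 * b + (-2) * c) (f2 : 0 ≤ (-2) * a + 3 * b + 12 * c) : False := by
  rcases le_total 0 (6 * a + (-13) * b + (-12) * c) with g | g
  · exact cv26 h (by omega) (by omega) (by omega)
  · exact cv71 h (by omega) (by omega) (by omega)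

theorem cv72 {a b c : ℤ} (h : Cx a b c) (f0 : 0 ≤ 2 * a + (-3) * b + (-4) * c)
    (f1 : 0 ≤ (-2) * a + 5 * b + 0 * c) (f2 : 0 ≤ (-2) * a + 3 * b + 12 * c) : False := by
  have h1 := h.2.1
  exact hole h.1 [0, 0, 1, 0, 2, 0, 0] (-7) 140 129 73 (-5) 82 11 71 (-78) (by decide) (by omega) (by omega) (by omega)

theorem cv24 {a b c : ℤ} (h : Cx a b c) (f0 : 0 ≤ 2 * a + (-3) * b + (-4) * c)
    (f1 : 0 ≤ 0 * a + 1 * b + (-2) * c) (f2 : 0 ≤ (-2) * a + 3 * b + 12 * c) : False := by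
  rcases le_total 0 (2 * a + (-5) * b + 0 * c) with g | g
  · exact cv25 h (by omega) (by omega) (by omega)
  · exact cv72 h (by omega) (by omega) (by omega)

theorem cv73 {a b c : ℤ} (h : Cx a b c) (f0 : 0 ≤ 2 * a + (-3) * b + 0 * c)
    (f1 : 0 ≤ 0 * a + 1 * b + (-2) * c) (f2 : 0 ≤ (-2) * a + 3 * b + 4 * c) : False := by
  have h1 := h.2.1
  exact hole h.1 [0, 0, 1, 0, 2] 51 (-50) (-53) (-7) 43 32 (-17) 49 50 (by decide) (by omega) (by omega) (by omega)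

theorem cv23 {a b c : ℤ} (h : Cx a b c) (f0 : 0 ≤ 2 * a + (-3) * b + 0 * c)
    (f1 : 0 ≤ 0 * a + 1 * b + (-2) * c) (f2 : 0 ≤ (-2) * a + 3 * b + 12 * c) : False := by
  rcases le_total 0 (2 * a + (-3) * b + (-4) * c) with g | g
  · exact cv24 h (by omega) (by omega) (by omega)
  · exact cv73 h (by omega) (by omega) (by omega)

theorem cv1 {a b c : ℤ} (h : Cx a b c) (f0 : 0 ≤ 2 * a + (-3) * b + 0 * c)
    (f1 : 0 ≤ 0 * a + 1 * b + (-2) * c) (f2 : 0 ≤ 0 * a + 0 * b + 1 * c) : False := by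
  rcases le_total 0 (2 * a + (-3) * b + (-12) * c) with g | g
  · exact cv2 h (by omega) (by omega) (by omega)
  · exact cv23 h (by omega) (by omega) (by omega)

theorem cv77 {a b c : ℤ} (h : Cx a b c) (f0 : 0 ≤ 1 * a + (-3) * b + (-3) * c)
    (f1 : 0 ≤ 0 * a + 1 * b + 0 * c) (f2 : 0 ≤ 0 * a + (-1) * b + 2 * c) : False := by
  have h1 := h.2.1
  exact hole h.1 [0, 0, 1, 0] 57 24 (-25) 15 (-9) 70 53 104 21 (by decide) (by omega) (by omega) (by omega)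

theorem cv80 {a b c : ℤ} (h : Cx a b c) (f0 : 0 ≤ 2 * a + (-3) * b + (-4) * c)
    (f1 : 0 ≤ (-2) * a + 9 * b + 0 * c) (f2 : 0 ≤ 0 * a + (-1) * b + 2 * c) : False := by
  have h1 := h.2.1
  exact hole h.1 [0, 0, 1, 0, 2, 0, 0] 34 193 94 75 343 (-135) 99 (-234) 268 (by decide) (by omega) (by omega) (by omega)

theorem cv81 {a b c : ℤ} (h : Cx a b c) (f0 : 0 ≤ 1 * a + 0 * b + (-3) * c)
    (f1 : 0 ≤ (-2) * a + 3 * b + 4 * c) (f2 : 0 ≤ 0 * a + (-1) * b + 2 * c) : False := by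
  have h1 := h.2.1
  exact hole h.1 [0, 0, 1, 0, 2] 51 (-50) (-53) (-7) 43 32 (-17) 49 50 (by decide) (by omega) (by omega) (by omega)

theorem cv79 {a b c : ℤ} (h : Cx a b c) (f0 : 0 ≤ 1 * a + 0 * b + (-3) * c)
    (f1 : 0 ≤ (-2) * a + 9 * b + 0 * c) (f2 : 0 ≤ 0 * a + (-1) * b + 2 * c) : False := by
  rcases le_total 0 (2 * a + (-3) * b + (-4) * c) with g | g
  · exact cv80 h (by omega) (by omega) (by omega)
  · exact cv81 h (by omega) (by omega) (by omega)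

theorem cv82 {a b c : ℤ} (h : Cx a b c) (f0 : 0 ≤ 1 * a + 0 * b + (-3) * c)
    (f1 : 0 ≤ (-1) * a + 3 * b + 3 * c) (f2 : 0 ≤ 2 * a + (-9) * b + 0 * c) : False := by
  have h1 := h.2.1
  exact hole h.1 [0, 0, 1, 0] 57 24 (-25) 15 (-9) 70 53 104 21 (by decide) (by omega) (by omega) (by omega)

theorem cv78 {a b c : ℤ} (h : Cx a b c) (f0 : 0 ≤ 1 * a + 0 * b + (-3) * c)
    (f1 : 0 ≤ (-1) * a + 3 * b + 3 * c) (f2 : 0 ≤ 0 * a + (-1) * b + 2 * c) : False := by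
  rcases le_total 0 ((-2) * a + 9 * b + 0 * c) with g | g
  · exact cv79 h (by omega) (by omega) (by omega)
  · exact cv82 h (by omega) (by omega) (by omega)

theorem cv76 {a b c : ℤ} (h : Cx a b c) (f0 : 0 ≤ 1 * a + 0 * b + (-3) * c)
    (f1 : 0 ≤ 0 * a + 1 * b + 0 * c) (f2 : 0 ≤ 0 * a + (-1) * b + 2 * c) : False := by
  rcases le_total 0 (1 * a + (-3) * b + (-3) * c) with g | g
  · exact cv77 h (by omega) (by omega) (by omega)
  · exact cv78 h (by omega) (by omega) (by omega)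

theorem cv83 {a b c : ℤ} (h : Cx a b c) (f0 : 0 ≤ 1 * a + (-1) * b + (-1) * c)
    (f1 : 0 ≤ 0 * a + 1 * b + 0 * c) (f2 : 0 ≤ (-1) * a + 0 * b + 3 * c) : False := by
  have h1 := h.2.1
  exact hole h.1 [0, 0, 1, 0, 2, 0, 0] (-11) 220 175 87 103 18 45 (-27) 16 (by decide) (by omega) (by omega) (by omega)

theorem cv75 {a b c : ℤ} (h : Cx a b c) (f0 : 0 ≤ 1 * a + (-1) * b + (-1) * c)
    (f1 : 0 ≤ 0 * a + 1 * b + 0 * c) (f2 : 0 ≤ 0 * a + (-1) * b + 2 * c) : False := by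
  rcases le_total 0 (1 * a + 0 * b + (-3) * c) with g | g
  · exact cv76 h (by omega) (by omega) (by omega)
  · exact cv83 h (by omega) (by omega) (by omega)

theorem cv84 {a b c : ℤ} (h : Cx a b c) (f0 : 0 ≤ 2 * a + (-3) * b + 0 * c)
    (f1 : 0 ≤ 0 * a + 1 * b + 0 * c) (f2 : 0 ≤ (-1) * a + 1 * b + 1 * c) : False := by
  have h1 := h.2.1
  exact hole h.1 [0, 0, 1] 71 35 8 (-7) 43 32 27 42 29 (by decide) (by omega) (by omega) (by omega)

theorem cv74 {a b c : ℤ} (h : Cx a b c) (f0 : 0 ≤ 2 * a + (-3) * b + 0 * c)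
    (f1 : 0 ≤ 0 * a + 1 * b + 0 * c) (f2 : 0 ≤ 0 * a + (-1) * b + 2 * c) : False := by
  rcases le_total 0 (1 * a + (-1) * b + (-1) * c) with g | g
  · exact cv75 h (by omega) (by omega) (by omega)
  · exact cv84 h (by omega) (by omega) (by omega)

theorem cv86 {a b c : ℤ} (h : Cx a b c) (f0 : 0 ≤ 1 * a + 0 * b + (-3) * c)
    (f1 : 0 ≤ (-2) * a + 3 * b + (-18) * c) (f2 : 0 ≤ 0 * a + 0 * b + 1 * c) : False := by
  have h1 := h.2.1
  exact hole h.1 [0, 0, 1, 0, 2, 0, 0] 7 4 2 10 9 10 2 8 (-1) (by decide) (by omega) (by omega) (by omega)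

theorem cv89 {a b c : ℤ} (h : Cx a b c) (f0 : 0 ≤ 5 * a + (-3) * b + (-9) * c)
    (f1 : 0 ≤ (-10) * a + 15 * b + (-18) * c) (f2 : 0 ≤ 2 * a + (-3) * b + 18 * c) : False := by
  have h1 := h.2.1
  exact hole h.1 [0, 0, 1, 0] 327 250 265 35 367 (-160) 447 372 437 (by decide) (by omega) (by omega) (by omega)

theorem cv90 {a b c : ℤ} (h : Cx a b c) (f0 : 0 ≤ 5 * a + (-3) * b + (-9) * c)
    (f1 : 0 ≤ (-2) * a + 3 * b + 0 * c) (f2 : 0 ≤ 10 * a + (-15) * b + 18 * c) : False := by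
  have h1 := h.2.1
  exact hole h.1 [0, 0, 1, 0, 2, 0, 0, 1] 42 33 2 (-26) 132 (-89) 31 (-38) 80 (by decide) (by omega) (by omega) (by omega)

theorem cv88 {a b c : ℤ} (h : Cx a b c) (f0 : 0 ≤ 5 * a + (-3) * b + (-9) * c)
    (f1 : 0 ≤ (-2) * a + 3 * b + 0 * c) (f2 : 0 ≤ 2 * a + (-3) * b + 18 * c) : False := by
  rcases le_total 0 ((-10) * a + 15 * b + (-18) * c) with g | g
  · exact cv89 h (by omega) (by omega) (by omega)
  · exact cv90 h (by omega) (by omega) (by omega)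

theorem cv91 {a b c : ℤ} (h : Cx a b c) (f0 : 0 ≤ 1 * a + 0 * b + (-3) * c)
    (f1 : 0 ≤ (-5) * a + 3 * b + 9 * c) (f2 : 0 ≤ 2 * a + (-3) * b + 18 * c) : False := by
  have h1 := h.2.1
  exact hole h.1 [0, 0, 1] 71 35 8 (-7) 43 32 27 42 29 (by decide) (by omega) (by omega) (by omega)

theorem cv87 {a b c : ℤ} (h : Cx a b c) (f0 : 0 ≤ 1 * a + 0 * b + (-3) * c)
    (f1 : 0 ≤ (-2) * a + 3 * b + 0 * c) (f2 : 0 ≤ 2 * a + (-3) * b + 18 * c) : False := by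
  rcases le_total 0 (5 * a + (-3) * b + (-9) * c) with g | g
  · exact cv88 h (by omega) (by omega) (by omega)
  · exact cv91 h (by omega) (by omega) (by omega)

theorem cv85 {a b c : ℤ} (h : Cx a b c) (f0 : 0 ≤ 1 * a + 0 * b + (-3) * c)
    (f1 : 0 ≤ (-2) * a + 3 * b + 0 * c) (f2 : 0 ≤ 0 * a + 0 * b + 1 * c) : False := by
  rcases le_total 0 ((-2) * a + 3 * b + (-18) * c) with g | g
  · exact cv86 h (by omega) (by omega) (by omega)
  · exact cv87 h (by omega) (by omega) (by omega)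

theorem cv92 {a b c : ℤ} (h : Cx a b c) (f0 : 0 ≤ 1 * a + 0 * b + 0 * c)
    (f1 : 0 ≤ (-2) * a + 3 * b + 0 * c) (f2 : 0 ≤ (-1) * a + 0 * b + 3 * c) : False := by
  have h1 := h.2.1
  exact hole h.1 [0, 0, 1] 71 35 8 (-7) 43 32 27 42 29 (by decide) (by omega) (by omega) (by omega)

theorem cover {a b c : ℤ} (ha : 0 ≤ a) (hb : 0 ≤ b) (hc : 0 ≤ c) (h : Thin (a, b, c)) :
    (a = 3 * c ∧ b = 2 * c) ∨
      (0 ≤ 2 * a - 5 * b - 4 * c ∧ 0 ≤ -a + 3 * b + c ∧ 0 ≤ -a + 2 * b + 4 * c) := by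
  by_contra hn
  rw [not_or] at hn
  have hx : Cx a b c := ⟨h, hn.1, hn.2⟩
  rcases le_total 0 (2 * a - 3 * b) with g | g
  · rcases le_total 0 (b - 2 * c) with g' | g'
    · exact cv1 hx (by omega) (by omega) (by omega)
    · exact cv74 hx (by omega) (by omega) (by omega)
  · rcases le_total 0 (a - 3 * c) with g' | g'
    · exact cv85 hx (by omega) (by omega) (by omega)
    · exact cv92 hx (by omega) (by omega) (by omega)

end Pool.Agent.MP_34d7b7_lc.H57
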