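import Mathlib

/-!
Word equations and length constraints.
-/

namespace Pool.Agent.MP_34d7b7_lc.H57

/-- the variables occurring in a word over variables `X` and letters `A`, in order, with
repetitions -/
def vars {X A : Type} (U : List (X ⊕ A)) : List X := U.filterMap Sum.getLeft?

/-- the image of a word under the morphism that fixes letters and sends `x` to `h x` -/
def subst {X A : Type} (h : X → List A) (U : List (X ⊕ A)) : List A :=
  U.flatMap (Sum.elim h fun a => [a])

/-- the integer combination of the values `l x` with the listed coefficients -/
def linVal {X : Type} (l : X → ℕ) (ts : List (ℤ × X)) : ℤ :=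
  (ts.map fun p => p.1 * (l p.2 : ℤ)).sum

/-- the length constraint `(ts, d, true)` is an equality, `(ts, d, false)` an inequality -/
def Holds {X A : Type} (h : X → List A) (C : List (ℤ × X) × ℤ × Bool) : Prop :=
  if C.2.2 = true then linVal (fun x => (h x).length) C.1 = C.2.1
  else linVal (fun x => (h x).length) C.1 ≤ C.2.1

end Pool.Agent.MP_34d7b7_lc.H57
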