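import Pool.Agent.MP_34d7b7_lc.H57.Base

/-!
From a definable set of numbers to instances over numbered variables and a given alphabet.
-/

namespace Pool.Agent.MP_34d7b7_lc.H57

variable {X Y A B : Type}

theorem subst_cons (h : X → List A) (u : X ⊕ A) (U : List (X ⊕ A)) :
    subst h (u :: U) = Sum.elim h (fun a => [a]) u ++ subst h U := by simp [subst]

theorem subst_letters (h : Y → List A) (f : X → Y) (g : A → B) (U : List (X ⊕ A)) :
    subst (fun y => (h y).map g) (U.map (Sum.map f g)) = (subst (fun x => h (f x)) U).map g := by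
  induction U with
  | nil => rfl
  | cons u U ih =>
    rw [List.map_cons, subst_cons, subst_cons, ih, List.map_append]
    rcases u with x | a <;> rfl

theorem subst_retract (h : Y → List B) (f : X → Y) (g : A → B) (ρ : B → A)
    (hg : ∀ a, ρ (g a) = a) (U : List (X ⊕ A)) :
    (subst h (U.map (Sum.map f g))).map ρ = subst (fun x => (h (f x)).map ρ) U := by
  induction U with
  | nil => rfl
  | cons u U ih =>
    rw [List.map_cons, subst_cons, subst_cons, List.map_append, ih]
    rcases u with x | a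
    · rfl
    · simp [hg]

theorem subst_congr {h h' : X → List A} (U : List (X ⊕ A)) (e : ∀ x ∈ vars U, h x = h' x) :
    subst h U = subst h' U := by
  induction U with
  | nil => rfl
  | cons u U ih =>
    rw [subst_cons, subst_cons]
    rcases u with x | a
    · rw [ih fun y hy => e y (List.mem_cons_of_mem _ hy)]
      exact congrArg (· ++ _) (e x List.mem_cons_self)
    · rw [ih e]; rfl

theorem linVal_congr {l l' : X → ℕ} (ts : List (ℤ × X)) (e : ∀ q ∈ ts, l q.2 = l' q.2) :
    linVal l ts = linVal l' ts := by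
  unfold linVal
  rw [List.map_congr_left fun q hq => by rw [e q hq]]

theorem vars_inl (W : List X) : vars (W.map (Sum.inl : X → X ⊕ A)) = W := by
  induction W with
  | nil => rfl
  | cons x W ih => exact congrArg (x :: ·) ih

/-- padding: the parameter becomes a word variable and all variables occur in the equation -/
theorem RL.pad {p : ℕ → Prop} (h : RL fun v : Unit → ℕ => p (v ())) :
    ∃ (X : Type) (x0 : X) (U V : List (X ⊕ Bool)) (cs : List (List (ℤ × X) × ℤ)),
      (vars U).Nodup ∧ (vars V).Nodup ∧ (x0 ∈ vars U ∨ x0 ∈ vars V) ∧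
      (∀ C ∈ cs, ∀ q ∈ C.1, q.2 ∈ vars U ∨ q.2 ∈ vars V) ∧
      ∀ n, p n ↔ ∃ h : X → List Bool, subst h U = subst h V ∧ (h x0).length = n ∧
        ∀ C ∈ cs, linVal (fun x => (h x).length) C.1 = C.2 := by
  classical
  obtain ⟨κ, U, V, L, hU, hV, ⟨cs, hL⟩, e⟩ := h
  set U1 : List ((Unit ⊕ κ) ⊕ Bool) := U.map (Sum.map Sum.inr id) with hU1
  set V1 : List ((Unit ⊕ κ) ⊕ Bool) := V.map (Sum.map Sum.inr id) with hV1
  set W : List (Unit ⊕ κ) := ((Sum.inl () :: cs.flatMap fun C => C.1.map Prod.snd).filter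
    fun x => x ∉ vars U1 ∧ x ∉ vars V1).dedup with hW
  have mem : ∀ x, x ∈ W ↔ (x = Sum.inl () ∨ ∃ C ∈ cs, ∃ q ∈ C.1, q.2 = x) ∧
      x ∉ vars U1 ∧ x ∉ vars V1 := by
    intro x
    simp only [hW, List.mem_dedup, List.mem_filter, List.mem_cons, List.mem_flatMap,
      List.mem_map, decide_eq_true_eq]
  have occ : ∀ x, (x = Sum.inl () ∨ ∃ C ∈ cs, ∃ q ∈ C.1, q.2 = x) →
      x ∈ vars (U1 ++ W.map Sum.inl) ∨ x ∈ vars (V1 ++ W.map Sum.inl) := by
    intro x hx
    simp only [vars_append, vars_inl, List.mem_append, mem]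
    tauto
  refine ⟨Unit ⊕ κ, Sum.inl (), U1 ++ W.map Sum.inl, V1 ++ W.map Sum.inl, cs, ?_, ?_,
    occ _ (Or.inl rfl), fun C hC q hq => occ _ (Or.inr ⟨C, hC, q, hq, rfl⟩), fun n => ?_⟩
  · rw [vars_append, vars_inl, List.nodup_append]
    refine ⟨by rw [hU1, vars_map]; exact hU.map Sum.inr_injective, List.nodup_dedup _, ?_⟩
    rintro x hx y hy rfl
    exact ((mem x).1 hy).2.1 hx
  · rw [vars_append, vars_inl, List.nodup_append]
    refine ⟨by rw [hV1, vars_map]; exact hV.map Sum.inr_injective, List.nodup_dedup _, ?_⟩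
    rintro x hx y hy rfl
    exact ((mem x).1 hy).2.2 hx
  · refine (e fun _ => n).trans ?_
    simp only [subst_append, List.append_left_inj, hU1, hV1, subst_map, ← hL]
    constructor
    · rintro ⟨h, h1, h2⟩
      refine ⟨Sum.elim (fun _ => List.replicate n true) h, h1, by simp, ?_⟩
      convert h2 using 2 with x
      rcases x with x | x <;> simp
    · rintro ⟨h, h1, h2, h3⟩
      refine ⟨_, h1, ?_⟩
      convert h3 using 2 with x
      rcases x with x | x <;> simp [h2]

theorem RL.inst {p : ℕ → Prop} (h : RL fun v : Unit → ℕ => p (v ())) {a b : A} (hab : a ≠ b) :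
    ∃ (x0 : ℕ) (U V : List (ℕ ⊕ A)) (cs : List (List (ℤ × ℕ) × ℤ × Bool)),
      (vars U).Nodup ∧ (vars V).Nodup ∧ (x0 ∈ vars U ∨ x0 ∈ vars V) ∧
      (∀ C ∈ cs, ∀ q ∈ C.1, q.2 ∈ vars U ∨ q.2 ∈ vars V) ∧
      ∀ n, p n ↔ ∃ h : ℕ → List A, subst h U = subst h V ∧ (h x0).length = n ∧
        ∀ C ∈ cs, Holds h C := by
  classical
  obtain ⟨X, x0, U, V, cs, hU, hV, h0, hc, e⟩ := h.pad
  obtain ⟨r, s, hs⟩ : ∃ (r : X → ℕ) (s : ℕ → X), ∀ x, x ∈ vars U ∨ x ∈ vars V →
      s (r x) = x := by
    refine ⟨fun x => (vars U ++ vars V).idxOf x, fun n => (vars U ++ vars V).getD n x0, ?_⟩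
    intro x hx
    have hx' : x ∈ vars U ++ vars V := List.mem_append.2 hx
    beta_reduce
    rw [List.getD_eq_getElem _ _ (List.idxOf_lt_length_of_mem hx'), List.getElem_idxOf]
  have occ : ∀ x, x ∈ vars U ∨ x ∈ vars V →
      r x ∈ vars (U.map (Sum.map r fun t => cond t a b)) ∨
        r x ∈ vars (V.map (Sum.map r fun t => cond t a b)) := by
    intro x hx
    rw [vars_map, vars_map]
    exact hx.imp (List.mem_map_of_mem) (List.mem_map_of_mem)
  refine ⟨r x0, U.map (Sum.map r fun t => cond t a b), V.map (Sum.map r fun t => cond t a b),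
    cs.map fun C => (C.1.map (Prod.map id r), C.2, true), ?_, ?_, occ _ h0, ?_, fun n => ?_⟩
  · rw [vars_map]
    exact hU.map_on fun x hx y hy hxy => by rw [← hs x (Or.inl hx), hxy, hs y (Or.inl hy)]
  · rw [vars_map]
    exact hV.map_on fun x hx y hy hxy => by rw [← hs x (Or.inr hx), hxy, hs y (Or.inr hy)]
  · simp only [List.forall_mem_map]
    exact fun C hC q hq => occ _ (hc C hC q hq)
  · refine (e n).trans ?_
    simp only [List.forall_mem_map, Holds, if_true, linVal_map]
    constructor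
    · rintro ⟨h, h1, h2, h3⟩
      refine ⟨fun m => (h (s m)).map fun t => cond t a b, ?_, ?_, fun C hC => ?_⟩
      · rw [subst_letters, subst_letters,
          subst_congr (h' := h) U fun x hx => by rw [hs x (Or.inl hx)],
          subst_congr (h' := h) V fun x hx => by rw [hs x (Or.inr hx)], h1]
      · rw [List.length_map, hs _ h0, h2]
      · rw [← h3 C hC]
        exact linVal_congr _ fun q hq => by rw [List.length_map, hs _ (hc C hC q hq)]
    · rintro ⟨h, h1, h2, h3⟩
      have hg : ∀ t : Bool, decide ((cond t a b) = a) = t := by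
        intro t; cases t <;> simp [hab.symm]
      refine ⟨fun x => (h (r x)).map fun c => decide (c = a), ?_, by simpa using h2, ?_⟩
      · rw [← subst_retract h r _ _ hg, ← subst_retract h r _ _ hg, h1]
      · simpa using h3

end Pool.Agent.MP_34d7b7_lc.H57
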