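import Pool.Agent.MP_34d7b7_lc.H57.Rays

/-!
Multiplication from the thin set, divisibility and addition.
-/

namespace Pool.Agent.MP_34d7b7_lc.H57

def ThinN (a b c : ℕ) : Prop := Thin ((a : ℤ), (b : ℤ), (c : ℤ))

def Dv (d n : ℕ) : Prop := 0 < d ∧ d ∣ n

def Scale (P h Q : ℕ) : Prop :=
  ∃ x2 x3 q2 q3 y1 y2 y3 z1 z2 z3 : ℕ, ThinN P x2 x3 ∧ ThinN Q q2 q3 ∧
    ThinN (P + Q) (x2 + q2) (x3 + q3) ∧ Dv P y1 ∧ Dv x2 y2 ∧ Dv x3 y3 ∧ y2 + y3 = y1 + 1 ∧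
    Dv h Q ∧ Dv h q2 ∧ Dv h q3 ∧ Dv Q z1 ∧ Dv q2 z2 ∧ Dv q3 z3 ∧ z2 + z3 = z1 + h

theorem ThinN.ray {a b c : ℕ} (h : ThinN a b c) :
    ∃ (g : ℤ) (n : ℕ), 0 < g ∧ ((a : ℤ), (b : ℤ), (c : ℤ)) = g • orb (n + 1) :=
  thin_ray (a + b + c) a b c (by omega) (by omega) (by omega) (by omega) h

theorem Scale.eq {P h Q : ℕ} (H : Scale P h Q) : Q = h * P := by
  obtain ⟨x2, x3, q2, q3, y1, y2, y3, z1, z2, z3, t1, t2, t3, ⟨-, s1, rfl⟩, ⟨-, s2, rfl⟩,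
    ⟨-, s3, rfl⟩, e1, ⟨hh, d1⟩, ⟨-, d2⟩, ⟨-, d3⟩, ⟨-, r1, rfl⟩, ⟨-, r2, rfl⟩, ⟨-, r3, rfl⟩,
    e2⟩ := H
  obtain ⟨g, i, hg, f1⟩ := t1.ray
  obtain ⟨g', j, hg', f2⟩ := t2.ray
  obtain ⟨g'', k, -, f3⟩ := t3.ray
  have hij : i + 1 = j + 1 := parallel hg hg' (k := k) (γ := g'') (by
    rw [← f1, ← f2, ← f3]; simp)
  rw [← hij] at f2
  generalize orb (i + 1) = o at f1 f2
  obtain ⟨o1, o2, o3⟩ := o
  simp only [Prod.smul_mk, smul_eq_mul, Prod.mk.injEq] at f1 f2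
  obtain ⟨a1, a2, a3⟩ := f1
  obtain ⟨b1, b2, b3⟩ := f2
  zify at e1 e2 d1 d2 d3 hh ⊢
  rw [a1, a2, a3] at e1
  have hg1 : g = 1 := Int.eq_one_of_mul_eq_one_right hg.le
    (show g * (o2 * s2 + o3 * s3 - o1 * s1) = 1 by linear_combination e1)
  subst hg1
  rw [b1] at d1
  rw [b2] at d2
  rw [b3] at d3
  rw [b1, b2, b3] at e2
  have k1 : (h : ℤ) ∣ g' := by
    have : g' = g' * o2 * s2 + g' * o3 * s3 - g' * o1 * s1 := by linear_combination (-g') * e1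
    rw [this]
    exact ((d2.mul_right _).add (d3.mul_right _)).sub (d1.mul_right _)
  have k2 : g' ∣ (h : ℤ) := ⟨o2 * r2 + o3 * r3 - o1 * r1, by linear_combination -e2⟩
  have := Int.dvd_antisymm hh.le hg'.le k1 k2
  rw [b1, a1, this]; ring

theorem exists_scale (n h : ℕ) (hh : 0 < h) : ∃ P, n < P ∧ Scale P h (h * P) := by
  obtain ⟨p1, p2, p3⟩ := orb_pos n
  obtain ⟨r, hr⟩ := orb_bezout (n + 1)
  have t := fun g hg => thin_orb (g := g) hg n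
  generalize orb (n + 1) = o at *
  obtain ⟨o1, o2, o3⟩ := o
  obtain ⟨r1, r2, r3⟩ := r
  simp only [dot, Prod.smul_mk, smul_eq_mul] at *
  lift o1 to ℕ using by omega
  lift o2 to ℕ using by omega
  lift o3 to ℕ using by omega
  have q1 : 0 < o1 := by omega
  have q2 : 0 < o2 := by omega
  have q3 : 0 < o3 := by omega
  set K : ℤ := |r1| + |r2| + |r3| with hK
  have k1 : r1 ≤ K ∧ -r2 ≤ K ∧ -r3 ≤ K ∧ 0 ≤ K := by
    have := le_abs_self r1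
    have := neg_abs_le r2
    have := neg_abs_le r3
    have := abs_nonneg r1
    have := abs_nonneg r2
    have := abs_nonneg r3
    omega
  obtain ⟨s1, hs1⟩ := Int.eq_ofNat_of_zero_le (show 0 ≤ K * (o2 + o3) - r1 by nlinarith)
  obtain ⟨s2, hs2⟩ := Int.eq_ofNat_of_zero_le (show 0 ≤ K * o1 + r2 by nlinarith)
  obtain ⟨s3, hs3⟩ := Int.eq_ofNat_of_zero_le (show 0 ≤ K * o1 + r3 by nlinarith)
  have e : o2 * s2 + o3 * s3 = o1 * s1 + 1 := by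
    zify
    rw [← hs1, ← hs2, ← hs3]
    linear_combination hr
  refine ⟨o1, by omega, o2, o3, h * o2, h * o3, o1 * s1, o2 * s2, o3 * s3, h * o1 * s1,
    h * o2 * s2, h * o3 * s3, ?_, ?_, ?_, ⟨q1, _, rfl⟩, ⟨q2, _, rfl⟩, ⟨q3, _, rfl⟩, e,
    ⟨hh, _, rfl⟩, ⟨hh, _, rfl⟩, ⟨hh, _, rfl⟩, ⟨Nat.mul_pos hh q1, _, rfl⟩,
    ⟨Nat.mul_pos hh q2, _, rfl⟩, ⟨Nat.mul_pos hh q3, _, rfl⟩, ?_⟩
  · simpa [ThinN] using t 1 one_pos
  · simpa [ThinN] using t h (by omega)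
  · have := t (1 + h) (by omega)
    simpa [ThinN, add_mul] using this
  · zify at e ⊢
    linear_combination h * e

def MulRel (x y z : ℕ) : Prop :=
  ∃ Q w d r : ℕ, Scale (x + d) (y + 1) Q ∧ Dv (x + y + 1) w ∧ Dv (x + y + 2) w ∧ 0 < w ∧
    w < d ∧ z < d ∧ Dv d r ∧ Q = r + z + x

theorem mulRel_iff (x y z : ℕ) : MulRel x y z ↔ z = x * y := by
  constructor
  · rintro ⟨Q, w, d, r, hs, ⟨-, d1⟩, ⟨-, d2⟩, hw, h1, h2, ⟨hd, s, rfl⟩, e⟩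
    have e1 := hs.eq
    have cop : Nat.Coprime (x + y + 1) (x + y + 2) := by
      rw [show x + y + 2 = (x + y + 1) + 1 by ring]
      simp
    have le := Nat.le_of_dvd hw (cop.mul_dvd_of_dvd_of_dvd d1 d2)
    have lt : x * y < d := by nlinarith
    have hm : z ≡ x * y [MOD d] := by
      have : d * s + z = d * (y + 1) + x * y := by nlinarith
      have h3 : (d * s + z) % d = (d * (y + 1) + x * y) % d := by rw [this]
      rwa [Nat.mul_add_mod, Nat.mul_add_mod] at h3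
    exact Nat.ModEq.eq_of_lt_of_lt hm h2 lt
  · rintro rfl
    obtain ⟨P, hP, hs⟩ :=
      exists_scale (x + x * y + (x + y + 1) * (x + y + 2)) (y + 1) (by omega)
    obtain ⟨d, rfl⟩ : ∃ d, P = x + d := ⟨P - x, by omega⟩
    exact ⟨_, (x + y + 1) * (x + y + 2), d, d * (y + 1), hs, ⟨by omega, _, rfl⟩,
      ⟨by omega, Dvd.intro_left _ rfl⟩, by positivity, by omega, by omega,
      ⟨by omega, _, rfl⟩, by ring⟩

end Pool.Agent.MP_34d7b7_lc.H57
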