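import Pool.Agent.MP_34d7b7_lc.H57.Defs
import Pool.Agent.MP_34d7b7_lc.H57.Mult

/-!
Relations defined by regular word equations with length constraints.
-/

namespace Pool.Agent.MP_34d7b7_lc.H57

section Lin
variable {X Y : Type}

theorem linVal_append (l : X → ℕ) (s t : List (ℤ × X)) :
    linVal l (s ++ t) = linVal l s + linVal l t := by simp [linVal]

theorem linVal_map (l : Y → ℕ) (f : X → Y) (s : List (ℤ × X)) :
    linVal l (s.map (Prod.map id f)) = linVal (fun x => l (f x)) s := by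
  simp [linVal, Function.comp_def]

theorem linVal_smul (l : X → ℕ) (c : ℤ) (s : List (ℤ × X)) :
    linVal l (s.map (Prod.map (c * ·) id)) = c * linVal l s := by
  induction s with
  | nil => simp [linVal]
  | cons p s ih =>
    simp only [linVal, List.map_cons, List.sum_cons, Prod.map_fst, Prod.map_snd, id] at ih ⊢
    rw [ih]; ring

def Lin (L : (X → ℕ) → Prop) : Prop :=
  ∃ cs : List (List (ℤ × X) × ℤ), ∀ l, L l ↔ ∀ C ∈ cs, linVal l C.1 = C.2

def LinF (f : (X → ℕ) → ℕ) : Prop :=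
  ∃ (ts : List (ℤ × X)) (c : ℤ), ∀ l, (f l : ℤ) = linVal l ts + c

theorem LinF.proj (x : X) : LinF fun l => l x := ⟨[(1, x)], 0, by simp [linVal]⟩

theorem LinF.const (c : ℕ) : LinF fun _ : X → ℕ => c := ⟨[], c, by simp [linVal]⟩

theorem LinF.add {f g : (X → ℕ) → ℕ} (hf : LinF f) (hg : LinF g) : LinF fun l => f l + g l := by
  obtain ⟨s, c, hs⟩ := hf
  obtain ⟨t, d, ht⟩ := hg
  exact ⟨s ++ t, c + d, fun l => by rw [linVal_append, Nat.cast_add, hs, ht]; ring⟩

theorem LinF.smul (c : ℕ) {f : (X → ℕ) → ℕ} (hf : LinF f) : LinF fun l => c * f l := by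
  obtain ⟨s, d, hs⟩ := hf
  exact ⟨_, c * d, fun l => by rw [linVal_smul l c s, Nat.cast_mul, hs]; ring⟩

theorem LinF.sum (xs : List X) : LinF fun l => (xs.map l).sum := by
  induction xs with
  | nil => exact LinF.const 0
  | cons x xs ih => exact (LinF.proj x).add ih

theorem Lin.eq {f g : (X → ℕ) → ℕ} (hf : LinF f) (hg : LinF g) : Lin fun l => f l = g l := by
  obtain ⟨s, c, hs⟩ := hf
  obtain ⟨t, d, ht⟩ := hg
  refine ⟨[(s ++ t.map (Prod.map ((-1) * ·) id), d - c)], fun l => ?_⟩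
  simp only [List.mem_singleton, forall_eq, linVal_append, linVal_smul]
  have := hs l
  have := ht l
  omega

theorem Lin.and {L M : (X → ℕ) → Prop} (hL : Lin L) (hM : Lin M) : Lin fun l => L l ∧ M l := by
  obtain ⟨s, hs⟩ := hL
  obtain ⟨t, ht⟩ := hM
  exact ⟨s ++ t, fun l => by simp only [hs, ht, List.forall_mem_append]⟩

theorem Lin.comap {L : (X → ℕ) → Prop} (hL : Lin L) (f : X → Y) :
    Lin fun l : Y → ℕ => L fun x => l (f x) := by
  obtain ⟨s, hs⟩ := hL
  refine ⟨s.map fun C => (C.1.map (Prod.map id f), C.2), fun l => ?_⟩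
  simp only [hs, List.forall_mem_map, linVal_map]

end Lin

section Words
variable {X Y A : Type}

theorem vars_append (U V : List (X ⊕ A)) : vars (U ++ V) = vars U ++ vars V := by
  simp [vars]

theorem subst_append (h : X → List A) (U V : List (X ⊕ A)) :
    subst h (U ++ V) = subst h U ++ subst h V := by
  simp [subst]

theorem vars_map {B : Type} (f : X → Y) (g : A → B) (U : List (X ⊕ A)) :
    vars (U.map (Sum.map f g)) = (vars U).map f := by
  induction U with
  | nil => rfl
  | cons u U ih =>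
    rcases u with x | a
    · exact congrArg (f x :: ·) ih
    · exact ih

theorem subst_map (h : Y → List A) (f : X → Y) (U : List (X ⊕ A)) :
    subst h (U.map (Sum.map f id)) = subst (fun x => h (f x)) U := by
  induction U with
  | nil => rfl
  | cons u U ih => rcases u with x | a <;> simpa [subst] using ih

theorem length_subst (h : X → List A) (U : List (X ⊕ A)) :
    (subst h U).length = ((vars U).map fun x => (h x).length).sum
      + (U.filterMap Sum.getRight?).length := by
  induction U with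
  | nil => rfl
  | cons u U ih =>
    have e : subst h (u :: U) = Sum.elim h (fun a => [a]) u ++ subst h U := by simp [subst]
    rw [e, List.length_append, ih]
    rcases u with x | a
    · exact (add_assoc _ _ _).symm
    · show 1 + (_ + _) = ((vars U).map fun x => (h x).length).sum
        + ((U.filterMap Sum.getRight?).length + 1)
      omega

end Words

variable {ι ι' : Type}

def RL (S : (ι → ℕ) → Prop) : Prop :=
  ∃ (κ : Type) (U V : List (κ ⊕ Bool)) (L : (ι ⊕ κ → ℕ) → Prop), (vars U).Nodup ∧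
    (vars V).Nodup ∧ Lin L ∧ ∀ v, S v ↔ ∃ h : κ → List Bool, subst h U = subst h V ∧
      L (Sum.elim v fun k => (h k).length)

theorem RL.congr {S S' : (ι → ℕ) → Prop} (h : RL S) (e : ∀ v, S v ↔ S' v) : RL S' := by
  rwa [show S' = S from funext fun v => propext (e v).symm]

theorem RL.lin {L : (ι → ℕ) → Prop} (h : Lin L) : RL L :=
  ⟨Empty, [], [], _, List.nodup_nil, List.nodup_nil, h.comap Sum.inl, fun _ =>
    ⟨fun hv => ⟨fun _ => [], rfl, hv⟩, fun ⟨_, _, hv⟩ => hv⟩⟩

theorem RL.comap {S : (ι → ℕ) → Prop} (h : RL S) (f : ι → ι') :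
    RL fun v : ι' → ℕ => S fun i => v (f i) := by
  obtain ⟨κ, U, V, L, hU, hV, hL, e⟩ := h
  refine ⟨κ, U, V, _, hU, hV, hL.comap (Sum.map f id), fun v => ?_⟩
  refine (e _).trans (exists_congr fun h => and_congr_right fun _ => iff_of_eq (congrArg L ?_))
  funext x; rcases x with x | x <;> rfl

theorem RL.ex {β : Type} {S : (ι ⊕ β → ℕ) → Prop} (h : RL S) :
    RL fun v : ι → ℕ => ∃ t, S (Sum.elim v t) := by
  obtain ⟨κ, U, V, L, hU, hV, hL, e⟩ := h
  refine ⟨β ⊕ κ, U.map (Sum.map Sum.inr id), V.map (Sum.map Sum.inr id), _, ?_, ?_,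
    hL.comap (Equiv.sumAssoc ι β κ), fun v => ?_⟩
  · rw [vars_map]; exact hU.map Sum.inr_injective
  · rw [vars_map]; exact hV.map Sum.inr_injective
  · simp only [e, subst_map]
    constructor
    · rintro ⟨t, h, h1, h2⟩
      refine ⟨Sum.elim (fun b => List.replicate (t b) true) h, h1, ?_⟩
      convert h2 using 2 with x
      rcases x with (x | x) | x <;> simp
    · rintro ⟨h, h1, h2⟩
      refine ⟨fun b => (h (Sum.inl b)).length, fun k => h (Sum.inr k), h1, ?_⟩
      convert h2 using 2 with x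
      rcases x with (x | x) | x <;> simp

theorem RL.and {S S' : (ι → ℕ) → Prop} (h : RL S) (h' : RL S') : RL fun v => S v ∧ S' v := by
  obtain ⟨κ, U, V, L, hU, hV, hL, e⟩ := h
  obtain ⟨κ', U', V', L', hU', hV', hL', e'⟩ := h'
  have nd : ∀ (W : List (κ ⊕ Bool)) (W' : List (κ' ⊕ Bool)), (vars W).Nodup → (vars W').Nodup →
      (vars (W.map (Sum.map Sum.inl id) ++ W'.map (Sum.map Sum.inr id) :
        List ((κ ⊕ κ') ⊕ Bool))).Nodup := by
    intro W W' h1 h2
    rw [vars_append, vars_map, vars_map, List.nodup_append]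
    refine ⟨h1.map Sum.inl_injective, h2.map Sum.inr_injective, ?_⟩
    simp
  have lf : ∀ W : List (κ ⊕ Bool), LinF fun l : ι ⊕ (κ ⊕ κ') → ℕ =>
      (((vars W).map fun k => Sum.inr (Sum.inl k)).map l).sum
        + (W.filterMap Sum.getRight?).length := fun W => (LinF.sum _).add (LinF.const _)
  refine ⟨κ ⊕ κ', _, _, _, nd U U' hU hU', nd V V' hV hV',
    (Lin.eq (lf U) (lf V)).and ((hL.comap (Sum.map id Sum.inl)).and
      (hL'.comap (Sum.map id Sum.inr))), fun v => ?_⟩
  simp only [e, e', subst_append, subst_map, List.map_map, Function.comp_def, Sum.elim_inr,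
    ← length_subst]
  constructor
  · rintro ⟨⟨h, h1, h2⟩, ⟨h', h1', h2'⟩⟩
    refine ⟨Sum.elim h h', ?_, ?_, ?_, ?_⟩
    · simp only [Sum.elim_inl, Sum.elim_inr]; rw [h1, h1']
    · simp only [Sum.elim_inl]; rw [h1]
    · convert h2 using 2 with x
      rcases x with x | x <;> simp
    · convert h2' using 2 with x
      rcases x with x | x <;> simp
  · rintro ⟨h, h1, h2, h3, h4⟩
    obtain ⟨h5, h6⟩ := List.append_inj h1 h2
    refine ⟨⟨_, h5, ?_⟩, ⟨_, h6, ?_⟩⟩
    · convert h3 using 2 with x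
      rcases x with x | x <;> simp
    · convert h4 using 2 with x
      rcases x with x | x <;> simp

theorem RL.ex1 {S : ℕ → (ι → ℕ) → Prop}
    (h : RL fun v : Option ι → ℕ => S (v none) fun i => v (some i)) :
    RL fun v => ∃ x, S x v := by
  refine (h.comap fun o => o.elim (Sum.inr ()) Sum.inl).ex.congr fun v => ?_
  exact ⟨fun ⟨t, ht⟩ => ⟨t (), ht⟩, fun ⟨x, hx⟩ => ⟨fun _ => x, hx⟩⟩

theorem RL.forall_list {α : Type} (l : List α) {S : α → (ι → ℕ) → Prop}
    (h : ∀ a ∈ l, RL (S a)) : RL fun v => ∀ a ∈ l, S a v := by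
  induction l with
  | nil => exact (RL.lin ⟨[], fun _ => Iff.rfl⟩).congr (by simp)
  | cons a l ih =>
    exact ((h a (by simp)).and (ih fun b hb => h b (by simp [hb]))).congr (by simp)

def LF (f : (ι → ℕ) → ℕ) : Prop := RL fun v : Option ι → ℕ => v none = f fun i => v (some i)

theorem LF.comap {f : (ι → ℕ) → ℕ} (h : LF f) (g : ι → ι') :
    LF fun v : ι' → ℕ => f fun i => v (g i) :=
  RL.comap h (Option.map g)

theorem RL.app3 {R : ℕ → ℕ → ℕ → Prop} (hR : RL fun v : Fin 3 → ℕ => R (v 0) (v 1) (v 2))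
    {f g k : (ι → ℕ) → ℕ} (hf : LF f) (hg : LF g) (hk : LF k) :
    RL fun v => R (f v) (g v) (k v) := by
  refine ((hR.comap Sum.inr).and ((RL.comap hf fun o => o.elim (Sum.inr 0) Sum.inl).and
    ((RL.comap hg fun o => o.elim (Sum.inr 1) Sum.inl).and
      (RL.comap hk fun o => o.elim (Sum.inr 2) Sum.inl)))).ex.congr fun v => ?_
  constructor
  · rintro ⟨t, h0, h1, h2, h3⟩
    simp only [Option.elim, Sum.elim_inl, Sum.elim_inr] at h0 h1 h2 h3
    rwa [h1, h2, h3] at h0
  · intro h
    exact ⟨![f v, g v, k v], h, rfl, rfl, rfl⟩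

theorem LF.proj (i : ι) : LF fun v => v i := RL.lin (Lin.eq (LinF.proj _) (LinF.proj _))

theorem LF.const (c : ℕ) : LF fun _ : ι → ℕ => c :=
  RL.lin (Lin.eq (LinF.proj _) (LinF.const _))

theorem LF.add {f g : (ι → ℕ) → ℕ} (hf : LF f) (hg : LF g) : LF fun v => f v + g v :=
  RL.app3 (R := fun x y z => x = y + z)
    (RL.lin (Lin.eq (LinF.proj _) ((LinF.proj _).add (LinF.proj _))))
    (LF.proj none) (hf.comap some) (hg.comap some)

theorem LF.smul (c : ℕ) {f : (ι → ℕ) → ℕ} (hf : LF f) : LF fun v => c * f v :=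
  RL.app3 (R := fun x y _ => x = c * y)
    (RL.lin (Lin.eq (LinF.proj _) ((LinF.proj _).smul c)))
    (LF.proj none) (hf.comap some) (LF.const 0)

theorem RL.eq {f g : (ι → ℕ) → ℕ} (hf : LF f) (hg : LF g) : RL fun v => f v = g v :=
  RL.app3 (R := fun x y _ => x = y) (RL.lin (Lin.eq (LinF.proj _) (LinF.proj _)))
    hf hg (LF.const 0)

theorem RL.lt {f g : (ι → ℕ) → ℕ} (hf : LF f) (hg : LF g) : RL fun v => f v < g v := by
  refine RL.app3 (R := fun x y _ => x < y) ?_ hf hg (LF.const 0)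
  refine (RL.ex1 (S := fun e v => v 1 = v 0 + e + 1) (RL.eq (LF.proj _)
    (((LF.proj _).add (LF.proj _)).add (LF.const 1)))).congr fun v => ?_
  exact ⟨fun ⟨e, he⟩ => by omega, fun h => ⟨v 1 - v 0 - 1, by omega⟩⟩

end Pool.Agent.MP_34d7b7_lc.H57
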