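import Pool.Agent.MP_34d7b7_lc.H57.Cover

/-!
The thin set is the union of the rays through an orbit, and sums force parallel vectors.
-/

namespace Pool.Agent.MP_34d7b7_lc.H57

def nstep (m : V3) : V3 :=
  (10 * m.1 + 12 * m.2.1 + 7 * m.2.2, 3 * m.1 + 4 * m.2.1 + 2 * m.2.2, m.1 + m.2.1 + m.2.2)

theorem nstep_eq (m : V3) : nstep m = ([0, 0, 1, 0, 2] : List (Fin 3)).foldr up m := by
  simp only [nstep, List.foldr, up]
  simp
  refine ⟨?_, ?_⟩ <;> ring

theorem accZ_nstep_iff {s : V3} (h : PosV s) : AccZ (nstep s) ↔ AccZ s := by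
  rw [nstep_eq, accZ_ups_iff h]

theorem theta_comm {T : M3} (hT : T ∈ thetas) (m : V3) :
    app T (nstep m) = nstep (app T m) := by
  simp only [thetas, thetaData, List.map, List.mem_cons, List.not_mem_nil, or_false] at hT
  rcases hT with h | h | h | h | h | h | h | h | h | h | h <;> subst h <;>
    simp only [app, dot, nstep, Prod.mk.injEq] <;> refine ⟨?_, ?_, ?_⟩ <;> ring

theorem theta_entries : ∀ T ∈ thetas, PosV T.1 ∧ PosV T.2.1 ∧ PosV T.2.2 := by
  unfold PosV; decide

theorem dot_pos {r m : V3} (hr : PosV r) (h1 : 0 ≤ m.1) (h2 : 0 ≤ m.2.1) (h3 : 0 ≤ m.2.2)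
    (h : 0 < m.1 + m.2.1 + m.2.2) : 0 < dot r m := by
  obtain ⟨r1, r2, r3⟩ := hr
  unfold dot
  nlinarith [mul_nonneg (sub_nonneg.2 (Int.add_one_le_of_lt r1)) h1,
    mul_nonneg (sub_nonneg.2 (Int.add_one_le_of_lt r2)) h2,
    mul_nonneg (sub_nonneg.2 (Int.add_one_le_of_lt r3)) h3]

theorem theta_pos {T : M3} (hT : T ∈ thetas) {m : V3} (h1 : 0 ≤ m.1) (h2 : 0 ≤ m.2.1)
    (h3 : 0 ≤ m.2.2) (h : 0 < m.1 + m.2.1 + m.2.2) : PosV (app T m) :=
  ⟨dot_pos (theta_entries T hT).1 h1 h2 h3 h, dot_pos (theta_entries T hT).2.1 h1 h2 h3 h,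
    dot_pos (theta_entries T hT).2.2 h1 h2 h3 h⟩

theorem thin_nstep_iff {m : V3} (h1 : 0 ≤ m.1) (h2 : 0 ≤ m.2.1)
    (h3 : 0 ≤ m.2.2) (h : 0 < m.1 + m.2.1 + m.2.2) : Thin (nstep m) ↔ Thin m := by
  refine forall₂_congr fun T hT => ?_
  rw [theta_comm hT, accZ_nstep_iff (theta_pos hT h1 h2 h3 h)]

theorem up_smul (g : ℤ) (k : Fin 3) (s : V3) : up k (g • s) = g • up k s := by
  obtain ⟨a, b, c⟩ := s
  unfold up
  split_ifs <;> simp only [Prod.smul_mk, smul_eq_mul, mul_add]

theorem ups_smul (g : ℤ) (w : List (Fin 3)) (s : V3) :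
    w.foldr up (g • s) = g • w.foldr up s := by
  induction w with
  | nil => rfl
  | cons k w ih => rw [List.foldr_cons, ih, up_smul, List.foldr_cons]

theorem app_smul (g : ℤ) (T : M3) (s : V3) : app T (g • s) = g • app T s := by
  simp only [app, dot, Prod.smul_fst, Prod.smul_snd, smul_eq_mul, Prod.smul_mk, Prod.mk.injEq]
  refine ⟨?_, ?_, ?_⟩ <;> ring

theorem theta_data : ∀ d ∈ thetaData, 0 < d.2.2.1 ∧ 0 < d.2.2.2 ∧
    app d.1 (3, 2, 1) = d.2.1.foldr up (d.2.2.1 + d.2.2.2, d.2.2.1, d.2.2.2) := by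
  decide

theorem thin_base {g : ℤ} (hg : 0 < g) : Thin (g • ((3, 2, 1) : V3)) := by
  intro T hT
  obtain ⟨d, hd, rfl⟩ := List.mem_map.1 hT
  obtain ⟨h1, h2, h3⟩ := theta_data d hd
  have p1 := mul_pos hg h1
  have p2 := mul_pos hg h2
  rw [app_smul, h3, ← ups_smul, accZ_ups_iff]
  · simp only [AccZ, Prod.smul_mk, smul_eq_mul, mul_add]
    rw [Int.toNat_add p1.le p2.le]
    exact Acc.tie (by omega) (by omega)
  · simp only [PosV, Prod.smul_mk, smul_eq_mul, mul_add]
    omega

/-- the orbit, started one step early -/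
def orb : ℕ → V3
  | 0 => (-8, 4, 5)
  | n + 1 => nstep (orb n)

theorem orb_pos (n : ℕ) : (n : ℤ) < (orb (n + 1)).1 ∧ 0 < (orb (n + 1)).2.1 ∧
    0 < (orb (n + 1)).2.2 := by
  induction n with
  | zero => decide
  | succ n ih =>
    rw [orb]
    simp only [nstep]
    push_cast
    omega

theorem nstep_smul (g : ℤ) (s : V3) : nstep (g • s) = g • nstep s := by
  rw [nstep_eq, nstep_eq, ups_smul]

theorem thin_orb {g : ℤ} (hg : 0 < g) (n : ℕ) : Thin (g • orb (n + 1)) := by
  induction n with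
  | zero => exact thin_base hg
  | succ n ih =>
    obtain ⟨h1, h2, h3⟩ := orb_pos n
    have p1 := mul_pos hg (show 0 < (orb (n + 1)).1 by omega)
    have p2 := mul_pos hg h2
    have p3 := mul_pos hg h3
    rw [orb, ← nstep_smul, thin_nstep_iff]
    · exact ih
    all_goals
      simp only [Prod.smul_fst, Prod.smul_snd, smul_eq_mul]
      omega

theorem not_thin_zero : ¬ Thin (0, 0, 0) := by
  intro h
  have := (h ((307, 359, 204), (91, 120, 69), (27, 42, 29)) (by decide)).pos
  simp [PosV, app, dot] at this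

theorem thin_ray (s : ℕ) : ∀ a b c : ℤ, 0 ≤ a → 0 ≤ b → 0 ≤ c → a + b + c ≤ s →
    Thin (a, b, c) → ∃ (g : ℤ) (n : ℕ), 0 < g ∧ (a, b, c) = g • orb (n + 1) := by
  induction s with
  | zero =>
    intro a b c ha hb hc hs h
    obtain rfl : a = 0 := by omega
    obtain rfl : b = 0 := by omega
    obtain rfl : c = 0 := by omega
    exact absurd h not_thin_zero
  | succ s ih =>
    intro a b c ha hb hc hs h
    rcases cover ha hb hc h with ⟨rfl, rfl⟩ | ⟨h1, h2, h3⟩
    · refine ⟨c, 0, ?_, ?_⟩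
      · rcases hc.lt_or_eq with h0 | rfl
        · exact h0
        · exact absurd h (by simpa using not_thin_zero)
      · simp [orb, nstep, mul_comm]
    · have e : (a, b, c) = nstep (2 * a - 5 * b - 4 * c, -a + 3 * b + c, -a + 2 * b + 4 * c) := by
        simp only [nstep, Prod.mk.injEq]
        refine ⟨?_, ?_, ?_⟩ <;> ring
      have hpos : 0 < (2 * a - 5 * b - 4 * c) + (-a + 3 * b + c) + (-a + 2 * b + 4 * c) := by
        by_contra h0
        obtain rfl : a = 0 := by omega
        obtain rfl : b = 0 := by omega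
        obtain rfl : c = 0 := by omega
        exact not_thin_zero h
      rw [e, thin_nstep_iff h1 h2 h3 hpos] at h
      obtain ⟨g, n, hg, e'⟩ := ih _ _ _ h1 h2 h3 (by push_cast at hs; omega) h
      exact ⟨g, n + 1, hg, by rw [e, e', nstep_smul]; rfl⟩

theorem rec_pos (f : ℕ → ℤ) (hf : ∀ n, f (n + 3) = 15 * f (n + 2) - 9 * f (n + 1) + f n)
    (k : ℕ) (h0 : f k = 0) (h1 : f (k + 1) = 0) (h2 : 0 < f (k + 2)) (n : ℕ) :
    0 < f n ∨ ((n = k ∨ n = k + 1) ∧ f n = 0) := by
  have fw : ∀ t, 0 ≤ f (k + t) ∧ f (k + t) ≤ f (k + t + 1) ∧ f (k + t + 1) < f (k + t + 2) := by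
    intro t
    induction t with
    | zero => simp only [add_zero]; omega
    | succ t ih =>
      have := hf (k + t)
      simp only [← add_assoc, show k + t + 1 + 1 = k + t + 2 by ring,
        show k + t + 1 + 2 = k + t + 3 by ring]
      omega
  have bw : ∀ t m, m + t + 1 = k → 3 * f (m + 1) ≤ f m ∧ 0 ≤ f (m + 1) ∧ 0 ≤ f (m + 2) ∧
      0 < f m := by
    intro t
    induction t with
    | zero =>
      intro m hm
      subst hm
      have := hf m
      simp only [add_zero, show m + 1 + 1 = m + 2 by ring, show m + 1 + 2 = m + 3 by ring] at *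
      omega
    | succ t ih =>
      intro m hm
      have := ih (m + 1) (by omega)
      have := hf m
      simp only [show m + 1 + 1 = m + 2 by ring, show m + 1 + 2 = m + 3 by ring] at *
      omega
  rcases lt_trichotomy n k with h | rfl | h
  · exact Or.inl (bw (k - n - 1) n (by omega)).2.2.2
  · exact Or.inr ⟨Or.inl rfl, h0⟩
  · rcases (Nat.succ_le_of_lt h).eq_or_lt with h' | h'
    · subst h'; exact Or.inr ⟨Or.inr rfl, h1⟩
    · have := fw (n - k - 2)
      rw [show k + (n - k - 2) + 2 = n by omega] at this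
      omega

def cross (u v : V3) : V3 :=
  (u.2.1 * v.2.2 - u.2.2 * v.2.1, u.2.2 * v.1 - u.1 * v.2.2, u.1 * v.2.1 - u.2.1 * v.1)

theorem det_orb (k : ℕ) : dot (cross (orb (k + 1)) (orb k)) (orb (k + 2)) = 97 := by
  induction k with
  | zero => decide
  | succ k ih =>
    rw [← ih]
    simp only [orb]
    generalize orb k = u
    simp only [dot, cross, nstep]
    ring

theorem psi_pos (k n : ℕ) : 0 < dot (cross (orb (k + 1)) (orb k)) (orb n) ∨
    ((n = k ∨ n = k + 1) ∧ dot (cross (orb (k + 1)) (orb k)) (orb n) = 0) := by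
  refine rec_pos (fun n => dot (cross (orb (k + 1)) (orb k)) (orb n)) ?_ k ?_ ?_ ?_ n
  · intro n
    generalize cross (orb (k + 1)) (orb k) = r
    simp only [orb]
    generalize orb n = u
    simp only [dot, nstep]
    ring
  · simp only [dot, cross]; ring
  · simp only [dot, cross]; ring
  · simp only [det_orb]; norm_num

theorem parallel {α β γ : ℤ} (hα : 0 < α) (hβ : 0 < β) {i j k : ℕ}
    (h : α • orb i + β • orb j = γ • orb (k + 1)) : i = j := by
  have key : ∀ l, k + 1 = l ∨ k + 1 = l + 1 → (i = l ∨ i = l + 1) ∧ (j = l ∨ j = l + 1) := by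
    intro l hl
    have e : α * dot (cross (orb (l + 1)) (orb l)) (orb i)
        + β * dot (cross (orb (l + 1)) (orb l)) (orb j)
        = γ * dot (cross (orb (l + 1)) (orb l)) (orb (k + 1)) := by
      generalize cross (orb (l + 1)) (orb l) = r
      have h1 := congrArg (fun s : V3 => s.1) h
      have h2 := congrArg (fun s : V3 => s.2.1) h
      have h3 := congrArg (fun s : V3 => s.2.2) h
      simp only [Prod.fst_add, Prod.snd_add, Prod.smul_fst, Prod.smul_snd, smul_eq_mul]
        at h1 h2 h3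
      simp only [dot]
      linear_combination r.1 * h1 + r.2.1 * h2 + r.2.2 * h3
    have z : dot (cross (orb (l + 1)) (orb l)) (orb (k + 1)) = 0 := by
      rcases hl with hl | hl <;> rw [hl] <;> simp only [dot, cross] <;> ring
    rw [z, mul_zero] at e
    rcases psi_pos l i with p | ⟨p, p'⟩ <;> rcases psi_pos l j with q | ⟨q, q'⟩
    · nlinarith [mul_pos hα p, mul_pos hβ q]
    · rw [q'] at e; nlinarith [mul_pos hα p]
    · rw [p'] at e; nlinarith [mul_pos hβ q]
    · exact ⟨p, q⟩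
  have k1 := key (k + 1) (Or.inl rfl)
  have k2 := key k (Or.inr rfl)
  omega

theorem orb_bezout (n : ℕ) : ∃ r : V3, dot r (orb n) = 1 := by
  induction n with
  | zero => exact ⟨(0, -1, 1), by decide⟩
  | succ n ih =>
    obtain ⟨r, hr⟩ := ih
    refine ⟨(2 * r.1 - r.2.1 - r.2.2, -5 * r.1 + 3 * r.2.1 + 2 * r.2.2,
      -4 * r.1 + r.2.1 + 4 * r.2.2), ?_⟩
    rw [← hr]
    simp only [orb, dot, nstep]
    ring

end Pool.Agent.MP_34d7b7_lc.H57
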