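import Mathlib

/-!
Word gadgets: divisibility, and the marked equation `x x y y z z = w w`.
-/

namespace Pool.Agent.MP_34d7b7_lc.H57

variable {A : Type}

theorem period_mod (W : ℕ → Option A) (u n : ℕ) (hu : 0 < u)
    (h : ∀ i, i < n → W (i + u) = W i) : ∀ i, i < n + u → W i = W (i % u) := by
  intro i
  induction i using Nat.strong_induction_on with
  | _ i ih =>
    intro hi
    by_cases hlt : i < u
    · rw [Nat.mod_eq_of_lt hlt]
    · have e : i = (i - u) + u := by omega
      have h1 : W i = W (i - u) := by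
        conv_lhs => rw [e]
        exact h _ (by omega)
      rw [h1, ih (i - u) (by omega) (by omega)]
      congr 1
      conv_rhs => rw [e]
      rw [Nat.add_mod_right]

theorem conj_period {a : A} {y y' x : List A} (hy : y.length = y'.length)
    (h : a :: (y ++ x) = x ++ (y' ++ [a])) :
    ((a :: y)[(x.length + y.length) % (y.length + 1)]? = some a) := by
  have hp := period_mod (fun i => (a :: (y ++ x))[i]?) (y.length + 1) x.length (by omega)
    (by
      intro i hi
      have h1 : (a :: (y ++ x))[i + (y.length + 1)]? = x[i]? := by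
        rw [← add_assoc, List.getElem?_cons_succ, List.getElem?_append_right (by omega)]
        congr 1; omega
      have h2 : (a :: (y ++ x))[i]? = x[i]? := by
        rw [h, List.getElem?_append_left hi]
      simp only [h1, h2])
    (x.length + y.length) (by omega)
  have h3 : (a :: (y ++ x))[x.length + y.length]? = some a := by
    have h4 : y'.length ≤ x.length + y.length - x.length := by omega
    rw [h, List.getElem?_append_right (by omega), List.getElem?_append_right h4]
    have : x.length + y.length - x.length - y'.length = 0 := by omega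
    rw [this]; rfl
  simp only [h3] at hp
  have hlt : (x.length + y.length) % (y.length + 1) < (a :: y).length := by
    rw [List.length_cons]; exact Nat.mod_lt _ (Nat.succ_pos _)
  rw [← List.cons_append, List.getElem?_append_left hlt] at hp
  exact hp.symm

/-- the divisibility gadget -/
theorem div_iff {a b : A} (hab : a ≠ b) (u n : ℕ) :
    (∃ y y' x x' : List A, y.length = u ∧ y'.length = u ∧ x.length = n + 1 ∧ x'.length = n + 1 ∧
      a :: (y ++ x) = x ++ (y' ++ [a]) ∧ x' ++ (y' ++ [b]) = b :: (y ++ x')) ↔ u + 1 ∣ n := by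
  constructor
  · rintro ⟨y, y', x, x', h1, h2, h3, h4, e1, e2⟩
    have p1 := conj_period (by omega) e1
    have p2 := conj_period (by omega) e2.symm
    rw [h3, h1] at p1
    rw [h4, h1] at p2
    have e : (n + 1 + u) % (u + 1) = n % (u + 1) := by
      rw [show n + 1 + u = n + (u + 1) by ring, Nat.add_mod_right]
    rw [e] at p1 p2
    rcases hr : n % (u + 1) with _ | r
    · exact Nat.dvd_of_mod_eq_zero hr
    · rw [hr, List.getElem?_cons_succ] at p1 p2
      rw [p1] at p2
      exact absurd (Option.some.inj p2) hab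
  · rintro ⟨j, rfl⟩
    have key : ∀ (c : A) (y : List A) (j : ℕ), ∃ x : List A,
        x.length = (y.length + 1) * j + 1 ∧ c :: (y ++ x) = x ++ (y ++ [c]) := by
      intro c y j
      induction j with
      | zero => exact ⟨[c], by simp, by simp⟩
      | succ j ih =>
        obtain ⟨x, hx, e⟩ := ih
        refine ⟨c :: (y ++ x), by simp [hx]; ring, ?_⟩
        conv_lhs => rw [e]
        simp
    obtain ⟨x, hx, e⟩ := key a (List.replicate u a) j
    obtain ⟨x', hx', e'⟩ := key b (List.replicate u a) j
    simp only [List.length_replicate] at hx hx'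
    exact ⟨List.replicate u a, List.replicate u a, x, x', by simp, by simp, hx, hx', e, e'.symm⟩

/-- a marked double block -/
def blk (p q : A) (x : List A) : List A := p :: (x ++ q :: x)

@[simp] theorem length_blk (p q : A) (x : List A) : (blk p q x).length = 2 * (x.length + 1) := by
  simp [blk]; ring

def IsSq (l : List A) : Prop := ∃ w, l = w ++ w

theorem IsSq.rot {X Y : List A} (h : IsSq (X ++ Y)) : IsSq (Y ++ X) := by
  induction X generalizing Y with
  | nil => simpa using h
  | cons x X ih =>
    obtain ⟨w, hw⟩ := h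
    rcases w with _ | ⟨c, w⟩
    · simp at hw
    · simp only [List.cons_append, List.cons.injEq] at hw
      obtain ⟨rfl, hw⟩ := hw
      have : IsSq (X ++ (Y ++ [x])) := ⟨w ++ [x], by rw [← List.append_assoc, hw]; simp⟩
      simpa using ih this

/-- solvability of the marked equation with block lengths `a b c` -/
def Sq (l0 l1 l2 l3 l4 l5 : A) (a b c : ℕ) : Prop :=
  ∃ x y z : List A, x.length + 1 = a ∧ y.length + 1 = b ∧ z.length + 1 = c ∧
    IsSq (blk l0 l1 x ++ (blk l2 l3 y ++ blk l4 l5 z))

theorem Sq.rot {l0 l1 l2 l3 l4 l5 : A} {a b c : ℕ} (h : Sq l0 l1 l2 l3 l4 l5 a b c) :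
    Sq l2 l3 l4 l5 l0 l1 b c a := by
  obtain ⟨x, y, z, hx, hy, hz, h⟩ := h
  exact ⟨y, z, x, hy, hz, hx, by simpa using h.rot⟩

theorem Sq.pos {l0 l1 l2 l3 l4 l5 : A} {a b c : ℕ} (h : Sq l0 l1 l2 l3 l4 l5 a b c) :
    0 < a ∧ 0 < b ∧ 0 < c := by
  obtain ⟨x, y, z, hx, hy, hz, _⟩ := h
  omega

theorem sq_core {p q : A} {x T : List A} {m : ℕ} (hT : T.length = 2 * (m + 1))
    (h : IsSq (blk p q x ++ T)) :
    ∃ u : List A, u.length = m ∧ x ++ T = u ++ p :: (x ++ q :: u) := by
  obtain ⟨w, hw⟩ := h
  have hl := congrArg List.length hw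
  simp only [List.length_append, length_blk] at hl
  have e1 : blk p q x ++ T = (p :: x) ++ (q :: (x ++ T)) := by simp [blk]
  rw [e1] at hw
  obtain ⟨u', hu1, hu2⟩ : ∃ u', w = (p :: x) ++ u' ∧ q :: (x ++ T) = u' ++ w := by
    rcases List.append_eq_append_iff.1 hw with ⟨u', h1, h2⟩ | ⟨u', h1, h2⟩
    · exact ⟨u', h1, h2⟩
    · have := congrArg List.length h1
      simp only [List.length_append, List.length_cons] at this
      omega
  have hl2 := congrArg List.length hu1
  simp only [List.length_append, List.length_cons] at hl2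
  rcases u' with _ | ⟨c, u⟩
  · simp at hl2; omega
  · simp only [List.cons_append, List.cons.injEq] at hu2
    obtain ⟨rfl, hu2⟩ := hu2
    refine ⟨u, by simp only [List.length_cons] at hl2; omega, ?_⟩
    rw [hu2, hu1]; simp

theorem sq_of_core {p q : A} {x T u : List A} (h : x ++ T = u ++ p :: (x ++ q :: u)) :
    IsSq (blk p q x ++ T) := by
  refine ⟨p :: (x ++ q :: u), ?_⟩
  have e1 : blk p q x ++ T = p :: (x ++ q :: (x ++ T)) := by simp [blk]
  rw [e1, h]; simp

theorem Sq.up {l0 l1 l2 l3 l4 l5 : A} {a b c : ℕ} (h : Sq l0 l1 l2 l3 l4 l5 a b c) :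
    Sq l0 l1 l2 l3 l4 l5 (a + b + c) b c := by
  obtain ⟨v, y, z, hx, hy, hz, h⟩ := h
  obtain ⟨u, hu, e⟩ := sq_core (m := b + c - 1) (by simp; omega) h
  refine ⟨u ++ l0 :: v, y, z, by simp; omega, hy, hz, sq_of_core (u := u) ?_⟩
  simp only [List.append_assoc, List.cons_append]
  rw [e]

theorem Sq.down {l0 l1 l2 l3 l4 l5 : A} {a b c : ℕ} (ha : 0 < a)
    (h : Sq l0 l1 l2 l3 l4 l5 (a + b + c) b c) : Sq l0 l1 l2 l3 l4 l5 a b c := by
  obtain ⟨x, y, z, hx, hy, hz, h⟩ := h
  obtain ⟨u, hu, e⟩ := sq_core (m := b + c - 1) (by simp; omega) h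
  obtain ⟨v', h1, h2⟩ : ∃ v', x = u ++ v' ∧
      l0 :: (x ++ l1 :: u) = v' ++ (blk l2 l3 y ++ blk l4 l5 z) := by
    rcases List.append_eq_append_iff.1 e with ⟨u', h1, h2⟩ | ⟨u', h1, h2⟩
    · have := congrArg List.length h1
      simp only [List.length_append] at this
      omega
    · exact ⟨u', h1, h2⟩
  have hl := congrArg List.length h1
  simp only [List.length_append] at hl
  rcases v' with _ | ⟨d, v⟩
  · simp at hl; omega
  · simp only [List.cons_append, List.cons.injEq] at h2
    obtain ⟨rfl, h2⟩ := h2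
    refine ⟨v, y, z, by simp only [List.length_cons] at hl; omega, hy, hz,
      sq_of_core (u := u) ?_⟩
    rw [← h2, h1]; simp

theorem sq_tie (p k q : A) {b c : ℕ} (hb : 0 < b) (hc : 0 < c) :
    Sq p k p q k q (b + c) b c := by
  obtain ⟨b, rfl⟩ : ∃ b', b = b' + 1 := ⟨b - 1, by omega⟩
  obtain ⟨c, rfl⟩ : ∃ c', c = c' + 1 := ⟨c - 1, by omega⟩
  refine ⟨List.replicate b k ++ q :: List.replicate c k, List.replicate b k, List.replicate c k,
    by simp; ring, by simp, by simp, ?_⟩
  have e : List.replicate c k ++ k :: List.replicate b k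
      = List.replicate b k ++ k :: List.replicate c k := by
    rw [← List.replicate_succ, ← List.replicate_succ, ← List.replicate_add, ← List.replicate_add]
    congr 1; ring
  refine ⟨blk p k (List.replicate b k ++ q :: List.replicate c k), ?_⟩
  congr 1
  simp only [blk, List.append_assoc, List.cons_append, List.cons.injEq, true_and,
    List.append_cancel_left_eq]
  rw [← List.cons_append, ← List.append_assoc, ← List.cons_append, ← List.append_assoc, e]

theorem blk_get0 (p q : A) (x : List A) : (blk p q x)[0]? = some p := rfl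

theorem blk_get1 (p q : A) (x : List A) : (blk p q x)[x.length + 1]? = some q := by
  simp [blk]

theorem blk_get2 (p q : A) (x : List A) (i : ℕ) (h0 : 0 < i) (h1 : i < x.length + 1) :
    (blk p q x)[x.length + 1 + i]? = (blk p q x)[i]? := by
  obtain ⟨i, rfl⟩ : ∃ j, i = j + 1 := ⟨i - 1, by omega⟩
  unfold blk
  rw [← add_assoc, List.getElem?_cons_succ, List.getElem?_cons_succ,
    List.getElem?_append_right (by omega), List.getElem?_append_left (by omega)]
  rw [show x.length + 1 + i - x.length = i + 1 by omega, List.getElem?_cons_succ]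

/-- inside the open triangle region, with `c` largest -/
theorem Sq.hole_max {l0 l1 l2 l3 l4 l5 : A} {a b c : ℕ} (h : Sq l0 l1 l2 l3 l4 l5 a b c)
    (hac : a ≤ c) (hbc : b ≤ c) (hc : c < a + b) :
    (a < c ∧ b < c ∧ l1 = l0) ∨ (a < c ∧ b = c ∧ l5 = l0) ∨ (a = c ∧ b < c ∧ l1 = l2) ∨
      (a = c ∧ b = c ∧ l1 = l4 ∧ l5 = l2) := by
  obtain ⟨x, y, z, rfl, rfl, rfl, w, hw⟩ := h
  set a := x.length + 1 with ha
  set b := y.length + 1 with hb
  set c := z.length + 1 with hc'
  have hl := congrArg List.length hw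
  simp only [List.length_append, length_blk] at hl
  rw [← ha, ← hb, ← hc'] at hl
  set W : ℕ → Option A := fun i => (blk l0 l1 x ++ (blk l2 l3 y ++ blk l4 l5 z))[i]? with hW
  have hs : ∀ i j, i < a + b + c → j = i + (a + b + c) → W j = W i := by
    intro i j hi hj
    simp only [hW, hw]
    rw [List.getElem?_append_right (by omega), List.getElem?_append_left (by omega)]
    congr 1; omega
  have hX : ∀ i, i < 2 * a → W i = (blk l0 l1 x)[i]? := by
    intro i hi
    simp only [hW]
    rw [List.getElem?_append_left (by simpa using hi)]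
  have hY : ∀ i, i < 2 * b → W (2 * a + i) = (blk l2 l3 y)[i]? := by
    intro i hi
    simp only [hW]
    rw [List.getElem?_append_right (by simp; omega),
      List.getElem?_append_left (by simp; omega)]
    congr 1; simp; omega
  have hZ : ∀ i, W (2 * a + 2 * b + i) = (blk l4 l5 z)[i]? := by
    intro i
    simp only [hW]
    rw [List.getElem?_append_right (by simp; omega),
      List.getElem?_append_right (by simp; omega)]
    congr 1; simp; omega
  have w0 : W 0 = some l0 := by rw [hX 0 (by omega)]; rfl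
  have w1 : W a = some l1 := by rw [hX a (by omega), ha, blk_get1]
  have w2 : W (2 * a) = some l2 := by
    have := hY 0 (by omega); rw [add_zero] at this; rw [this]; rfl
  have w4 : W (2 * a + 2 * b) = some l4 := by
    have := hZ 0; rw [add_zero] at this; rw [this]; rfl
  have w5 : W (2 * a + 2 * b + c) = some l5 := by rw [hZ, hc', blk_get1]
  have sy : ∀ i, 0 < i → i < b → W (2 * a + (b + i)) = W (2 * a + i) := by
    intro i h0 h1
    rw [hY _ (by omega), hY _ (by omega), hb, blk_get2 _ _ _ _ h0 h1]
  have sz : ∀ i, 0 < i → i < c → W (2 * a + 2 * b + (c + i)) = W (2 * a + 2 * b + i) := by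
    intro i h0 h1
    rw [hZ, hZ, hc', blk_get2 _ _ _ _ h0 h1]
  -- from `a` to `a + c`
  have s1 : b < c → W (a + c) = some l1 := by
    intro hbc'
    rw [← hs (a + c) (2 * a + 2 * b + (c + (c - b))) (by omega) (by omega),
      sz _ (by omega) (by omega), hs a _ (by omega) (by omega), w1]
  have s2 : b = c → W (a + c) = some l5 := by
    intro hbc'
    rw [← hs (a + c) (2 * a + 2 * b + c) (by omega) (by omega), w5]
  have s3 : a < c → W (a + c) = some l0 := by
    intro hac'
    rw [show a + c = 2 * a + (c - a) by omega, ← sy _ (by omega) (by omega),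
      hs 0 _ (by omega) (by omega), w0]
  have s4 : a = c → W (a + c) = some l2 := by
    intro hac'
    rw [show a + c = 2 * a by omega, w2]
  have s5 : b = c → l1 = l4 := by
    intro hbc'
    have := hs a (2 * a + 2 * b) (by omega) (by omega)
    rw [w1, w4] at this
    exact (Option.some.inj this).symm
  rcases hac.lt_or_eq with h1 | h1 <;> rcases hbc.lt_or_eq with h2 | h2
  · exact Or.inl ⟨h1, h2, Option.some.inj ((s1 h2).symm.trans (s3 h1))⟩
  · exact Or.inr (Or.inl ⟨h1, h2, Option.some.inj ((s2 h2).symm.trans (s3 h1))⟩)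
  · exact Or.inr (Or.inr (Or.inl ⟨h1, h2, Option.some.inj ((s1 h2).symm.trans (s4 h1))⟩))
  · exact Or.inr (Or.inr (Or.inr ⟨h1, h2, s5 h2,
      Option.some.inj ((s2 h2).symm.trans (s4 h1))⟩))

/-- the regular double of the marked equation -/
theorem sq_iff_double (l0 l1 l2 l3 l4 l5 : Bool) (a b c : ℕ) :
    (∃ x x' y y' z z' p q : List Bool, x.length + 1 = a ∧ x'.length + 1 = a ∧
      y.length + 1 = b ∧ y'.length + 1 = b ∧ z.length + 1 = c ∧ z'.length + 1 = c ∧
      p.length = q.length ∧
      l0 :: (x ++ l1 :: (x' ++ l2 :: (y ++ l3 :: (y' ++ l4 :: (z ++ l5 :: z'))))) = p ++ q ∧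
      q ++ p = l0 :: (x' ++ l1 :: (x ++ l2 :: (y' ++ l3 :: (y ++ l4 :: (z' ++ l5 :: z)))))) ↔
    Sq l0 l1 l2 l3 l4 l5 a b c := by
  constructor
  · rintro ⟨x, x', y, y', z, z', p, q, h1, h2, h3, h4, h5, h6, h7, e1, e2⟩
    have comm : ∀ s t : List Bool, List.zipWith and s t = List.zipWith and t s := fun s t =>
      List.zipWith_comm_of_comm (fun _ _ => Bool.and_comm _ _)
    refine ⟨List.zipWith and x x', List.zipWith and y y', List.zipWith and z z',
      by simp; omega, by simp; omega, by simp; omega, List.zipWith and p q, ?_⟩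
    have e3 := congrArg₂ (List.zipWith and) e1 e2.symm
    rw [List.zipWith_append h7, comm q p] at e3
    rw [← e3]
    simp only [List.zipWith_cons_cons, Bool.and_self]
    rw [List.zipWith_append (by omega)]
    simp only [List.zipWith_cons_cons, Bool.and_self]
    rw [List.zipWith_append (by omega)]
    simp only [List.zipWith_cons_cons, Bool.and_self]
    rw [List.zipWith_append (by omega)]
    simp only [List.zipWith_cons_cons, Bool.and_self]
    rw [List.zipWith_append (by omega)]
    simp only [List.zipWith_cons_cons, Bool.and_self]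
    rw [List.zipWith_append (by omega)]
    simp only [List.zipWith_cons_cons, Bool.and_self]
    rw [comm x' x, comm y' y, comm z' z]
    simp [blk]
  · rintro ⟨x, y, z, h1, h2, h3, w, e⟩
    refine ⟨x, x, y, y, z, z, w, w, h1, h1, h2, h2, h3, h3, rfl, ?_, ?_⟩
    · rw [← e]; simp [blk]
    · rw [← e]; simp [blk]

/-- both markings are solvable -/
def Acc (a b c : ℕ) : Prop :=
  Sq true false true false false false a b c ∧ Sq false true false false true false a b c

theorem Acc.tie {b c : ℕ} (hb : 0 < b) (hc : 0 < c) : Acc (b + c) b c :=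
  ⟨sq_tie true false false hb hc, sq_tie false true false hb hc⟩

theorem Acc.up0 {a b c : ℕ} (h : Acc a b c) : Acc (a + b + c) b c := ⟨h.1.up, h.2.up⟩

theorem Acc.up1 {a b c : ℕ} (h : Acc a b c) : Acc a (a + b + c) c := by
  rw [show a + b + c = b + c + a by ring]
  exact ⟨h.1.rot.up.rot.rot, h.2.rot.up.rot.rot⟩

theorem Acc.up2 {a b c : ℕ} (h : Acc a b c) : Acc a b (a + b + c) := by
  rw [show a + b + c = c + a + b by ring]
  exact ⟨h.1.rot.rot.up.rot, h.2.rot.rot.up.rot⟩

theorem Acc.down0 {a b c : ℕ} (ha : 0 < a) (h : Acc (a + b + c) b c) : Acc a b c :=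
  ⟨h.1.down ha, h.2.down ha⟩

theorem Acc.down1 {a b c : ℕ} (hb : 0 < b) (h : Acc a (a + b + c) c) : Acc a b c := by
  rw [show a + b + c = b + c + a by ring] at h
  exact ⟨(h.1.rot.down hb).rot.rot, (h.2.rot.down hb).rot.rot⟩

theorem Acc.down2 {a b c : ℕ} (hc : 0 < c) (h : Acc a b (a + b + c)) : Acc a b c := by
  rw [show a + b + c = c + a + b by ring] at h
  exact ⟨(h.1.rot.rot.down hc).rot, (h.2.rot.rot.down hc).rot⟩

theorem Acc.not_tri {a b c : ℕ} (h : Acc a b c) (h0 : a < b + c) (h1 : b < a + c)
    (h2 : c < a + b) : False := by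
  obtain ⟨p, q⟩ := h
  by_cases hc : a ≤ c ∧ b ≤ c
  · have := p.hole_max hc.1 hc.2 h2
    simp at this
  by_cases ha : b ≤ a ∧ c ≤ a
  · have r1 := p.rot.hole_max ha.1 ha.2 h0
    have r2 := q.rot.hole_max ha.1 ha.2 h0
    simp at r1 r2
    omega
  · have r1 := p.rot.rot.hole_max (by omega) (by omega) (by omega)
    have r2 := q.rot.rot.hole_max (by omega) (by omega) (by omega)
    simp at r1 r2
    omega

end Pool.Agent.MP_34d7b7_lc.H57
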